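import Pool.Agent.Lib.EulF.Defs2

/-!
# Sums over the identifications of a labelled graph with its type
-/

set_option autoImplicit false
set_option maxRecDepth 100000

namespace EulF

open Finset

theorem chkIso : allN 729 (fun s => cond (bad4 s) true (okI s)) = true := by decide +kernel

theorem chkIT : allN 24 (fun t => allN 81 fun a => allN 32 fun r =>
    Nat.beq (lk8 (ITf r) (Nat.add (Nat.mul 81 t) a)) (lk8 (ITf r) (actE t a))) = true := by
  decide +kernel

theorem dgn_lt (R k : ℕ) : dgn R k < 3 := Nat.mod_lt _ (by norm_num)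

theorem actE_lt (t a : ℕ) : actE t a < 81 := by
  have h0 := dgn_lt a (p4n t 0)
  have h1 := dgn_lt a (p4n t 1)
  have h2 := dgn_lt a (p4n t 2)
  have h3 := dgn_lt a (p4n t 3)
  have : actE t a = dgn a (p4n t 0) + 3 * dgn a (p4n t 1) + 9 * dgn a (p4n t 2) +
    27 * dgn a (p4n t 3) := rfl
  omega

theorem ent_act {r t a b : ℕ} (hr : r < 32) (ht : t < 24) (ha : a < 81) (hb : b < 81) :
    ent r (actE t a) (actE t b) 0 = ent r a b t := by
  have h1 := Nat.eq_of_beq_eq_true (allN_spec (allN_spec (allN_spec chkIT t ht) a ha) r hr)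
  have h2 := Nat.eq_of_beq_eq_true (allN_spec (allN_spec (allN_spec chkIT t ht) b hb) r hr)
  have e : ∀ x : ℕ, Nat.add (Nat.mul 81 0) x = x := fun x => Nat.zero_add x
  unfold ent tl
  rw [h1, h2, e, e]

theorem sum_list_sub (L : List ℕ) (f : ℕ → ℕ) (c : ℤ) :
    (L.map fun t => ((f t : ℕ) : ℤ) - c).sum = ((L.map f).sum : ℤ) - L.length * c := by
  induction L with
  | nil => simp
  | cons x L ih =>
    simp only [List.map_cons, List.sum_cons, ih, List.length_cons]
    push_cast
    ring

theorem iso_sum {s a b : ℕ} (hs : s < 729) (hbad : bad4 s = false) (ha : a < 81) (hb : b < 81) :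
    ∑ t ∈ range 24, gT (actS t s) (actE t a) (actE t b) = (isoN s a b : ℤ) - OFF := by
  have h := allN_spec chkIso s hs
  rw [hbad] at h
  have h' : okI s = true := h
  simp only [okI, Bool.and_eq_true, decide_eq_true_eq, List.all_eq_true] at h'
  obtain ⟨⟨⟨hlen, hnd⟩, hlt⟩, hall⟩ := h'
  have hr : iso s % 32 < 32 := Nat.mod_lt _ (by norm_num)
  have h1 : ∀ t ∈ range 24, gT (actS t s) (actE t a) (actE t b) =
      if t ∈ isoL s then ((ent (iso s % 32) a b t : ℕ) : ℤ) - off (iso s % 32) else 0 := by
    intro t ht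
    have ht' := Finset.mem_range.1 ht
    have h2 := hall t (List.mem_range.2 ht')
    split_ifs with hm
    · rw [if_pos hm] at h2
      have h3 : ridx (actS t s) = iso s % 32 := of_decide_eq_true h2
      unfold gT
      rw [if_pos ⟨by rw [h3]; exact hr, actE_lt _ _, actE_lt _ _⟩, h3, ent_act hr ht' ha hb]
    · rw [if_neg hm] at h2
      have h3 : 32 ≤ ridx (actS t s) := of_decide_eq_true h2
      unfold gT
      rw [if_neg fun hc => absurd hc.1 (not_lt.2 h3)]
  rw [Finset.sum_congr rfl h1, ← Finset.sum_filter]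
  have h4 : (range 24).filter (fun t => t ∈ isoL s) = (isoL s).toFinset := by
    ext t
    simp only [Finset.mem_filter, Finset.mem_range, List.mem_toFinset]
    exact ⟨fun h => h.2, fun h => ⟨hlt t h, h⟩⟩
  rw [h4, List.sum_toFinset _ hnd, sum_list_sub, isoN_eq, ← hlen]
  push_cast
  ring

end EulF
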