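import Pool.Agent.Lib.EulF.Cert0
import Pool.Agent.Lib.EulF.Cert1
import Pool.Agent.Lib.EulF.Cert2
import Pool.Agent.Lib.EulF.Cert3
import Pool.Agent.Lib.EulF.Cert4
import Pool.Agent.Lib.EulF.Cert5
import Pool.Agent.Lib.EulF.Cert6
import Pool.Agent.Lib.EulF.Cert7
import Pool.Agent.Lib.EulF.Iso

/-!
# The certificate function is a sum of squares modulo the balance conditions
-/

set_option autoImplicit false
set_option maxRecDepth 100000

namespace EulF

open Finset

theorem certR_all (r : ℕ) (hr : r < 32) : CertR r := by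
  interval_cases r
  exacts [cert0, cert1, cert2, cert3, cert4, cert5, cert6, cert7, cert8, cert9, cert10, cert11,
    cert12, cert13, cert14, cert15, cert16, cert17, cert18, cert19, cert20, cert21, cert22, cert23,
    cert24, cert25, cert26, cert27, cert28, cert29, cert30, cert31]

theorem chkIdx : allN 32 (fun r => allN 81 fun a =>
    Nat.ble (Nat.succ (lk8 (ITf r) a)) (nf r)) = true := by decide +kernel

/-- A pair and two adjacencies form a directed triangle. -/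
def badF (d a b : ℕ) : Bool :=
  cond (Nat.beq (Nat.add (Nat.add (Nat.mul 9 d) (Nat.mul 3 a)) b) 14) true
    (Nat.beq (Nat.add (Nat.add (Nat.mul 9 d) (Nat.mul 3 a)) b) 25)

/-- The extension is without directed triangles through the new vertex. -/
def badE (s a : ℕ) : Bool :=
  cond (badF (dgn s 0) (dgn a 0) (dgn a 1)) true
  (cond (badF (dgn s 1) (dgn a 0) (dgn a 2)) true
  (cond (badF (dgn s 2) (dgn a 1) (dgn a 2)) true
  (cond (badF (dgn s 3) (dgn a 0) (dgn a 3)) true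
  (cond (badF (dgn s 4) (dgn a 1) (dgn a 3)) true
  (badF (dgn s 5) (dgn a 2) (dgn a 3))))))

theorem chkFlag : allN 729 (fun s => cond (Nat.ble 32 (ridx s)) true
    (allN 81 fun a => cond (badE s a) true
      (Nat.beq (lk8 (FLf (ridx s)) (lk8 (ITf (ridx s)) a)) a))) = true := by decide +kernel

theorem ent_zero (r a b : ℕ) : ent r a b 0 =
    lk48 (Tf r) (lk8 (ITf r) a * nf r + lk8 (ITf r) b) := by
  have e : ∀ x : ℕ, Nat.add (Nat.mul 81 0) x = x := fun x => Nat.zero_add x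
  unfold ent tl
  rw [e, e]
  rfl

theorem idx_lt {r a : ℕ} (hr : r < 32) (ha : a < 81) : lk8 (ITf r) a < nf r :=
  Nat.le_of_ble_eq_true (allN_spec (allN_spec chkIdx r hr) a ha)

theorem gT_symm (s a b : ℕ) : gT s a b = gT s b a := by
  unfold gT
  by_cases h : ridx s < 32 ∧ a < 81 ∧ b < 81
  · obtain ⟨hr, ha, hb⟩ := h
    rw [if_pos ⟨hr, ha, hb⟩, if_pos ⟨hr, hb, ha⟩, ent_zero, ent_zero]
    obtain ⟨K, L, e, h⟩ := certR_entry (certR_all _ hr)
    rw [h _ (idx_lt hr ha) _ (idx_lt hr hb), h _ (idx_lt hr hb) _ (idx_lt hr ha)]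
    congr 1
    · congr 1
      exact Finset.sum_congr rfl fun k _ => mul_comm _ _
    · exact Finset.sum_congr rfl fun m _ => by ring
  · rw [if_neg h, if_neg fun h' => h ⟨h'.1, h'.2.2, h'.2.1⟩]

theorem sig_dgn {V : Type*} {c : V → V → ℕ} (hc : Good c) (x0 x1 x2 x3 : V) :
    dgn (sig c x0 x1 x2 x3) 0 = c x0 x1 ∧ dgn (sig c x0 x1 x2 x3) 1 = c x0 x2 ∧
    dgn (sig c x0 x1 x2 x3) 2 = c x1 x2 ∧ dgn (sig c x0 x1 x2 x3) 3 = c x0 x3 ∧
    dgn (sig c x0 x1 x2 x3) 4 = c x1 x3 ∧ dgn (sig c x0 x1 x2 x3) 5 = c x2 x3 := by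
  have h1 := hc.le x0 x1
  have h2 := hc.le x0 x2
  have h3 := hc.le x1 x2
  have h4 := hc.le x0 x3
  have h5 := hc.le x1 x3
  have h6 := hc.le x2 x3
  have e : ∀ R k, dgn R k = R / 3 ^ k % 3 := fun _ _ => rfl
  simp only [e, sig]
  generalize c x0 x1 = a1 at *
  generalize c x0 x2 = a2 at *
  generalize c x1 x2 = a3 at *
  generalize c x0 x3 = a4 at *
  generalize c x1 x3 = a5 at *
  generalize c x2 x3 = a6 at *
  refine ⟨?_, ?_, ?_, ?_, ?_, ?_⟩ <;> norm_num <;> omega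

theorem ext_dgn {V : Type*} {c : V → V → ℕ} (hc : Good c) (x0 x1 x2 x3 y : V) :
    dgn (ext c x0 x1 x2 x3 y) 0 = c y x0 ∧ dgn (ext c x0 x1 x2 x3 y) 1 = c y x1 ∧
    dgn (ext c x0 x1 x2 x3 y) 2 = c y x2 ∧ dgn (ext c x0 x1 x2 x3 y) 3 = c y x3 := by
  have h1 := hc.le y x0
  have h2 := hc.le y x1
  have h3 := hc.le y x2
  have h4 := hc.le y x3
  have e : ∀ R k, dgn R k = R / 3 ^ k % 3 := fun _ _ => rfl
  simp only [e, ext]
  generalize c y x0 = a1 at *
  generalize c y x1 = a2 at *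
  generalize c y x2 = a3 at *
  generalize c y x3 = a4 at *
  refine ⟨?_, ?_, ?_, ?_⟩ <;> norm_num <;> omega

theorem sig_lt {V : Type*} {c : V → V → ℕ} (hc : Good c) (x0 x1 x2 x3 : V) :
    sig c x0 x1 x2 x3 < 729 := by
  have h1 := hc.le x0 x1
  have h2 := hc.le x0 x2
  have h3 := hc.le x1 x2
  have h4 := hc.le x0 x3
  have h5 := hc.le x1 x3
  have h6 := hc.le x2 x3
  unfold sig
  omega

theorem ext_lt {V : Type*} {c : V → V → ℕ} (hc : Good c) (x0 x1 x2 x3 y : V) :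
    ext c x0 x1 x2 x3 y < 81 := by
  have h1 := hc.le y x0
  have h2 := hc.le y x1
  have h3 := hc.le y x2
  have h4 := hc.le y x3
  unfold ext
  omega

theorem badF_false {V : Type*} {c : V → V → ℕ} (hc : Good c) (u v y : V) :
    badF (c u v) (c y u) (c y v) = false := by
  have h1 := hc.le u v
  have h2 := hc.le y u
  have h3 := hc.le y v
  have t1 := hc.tri u v y
  have t2 := hc.tri v u y
  rw [hc.anti u v] at t2
  rw [hc.anti y v] at t1
  rw [hc.anti y u] at t2
  generalize c u v = d at *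
  generalize c y u = a at *
  generalize c y v = b at *
  interval_cases d <;> interval_cases a <;> interval_cases b <;> first | rfl | simp_all [fl]

theorem badE_false {V : Type*} {c : V → V → ℕ} (hc : Good c) (x0 x1 x2 x3 y : V) :
    badE (sig c x0 x1 x2 x3) (ext c x0 x1 x2 x3 y) = false := by
  obtain ⟨s0, s1, s2, s3, s4, s5⟩ := sig_dgn hc x0 x1 x2 x3
  obtain ⟨e0, e1, e2, e3⟩ := ext_dgn hc x0 x1 x2 x3 y
  unfold badE
  rw [s0, s1, s2, s3, s4, s5, e0, e1, e2, e3]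
  simp only [badF_false hc, cond_false]

theorem gT_cert {V : Type*} {c : V → V → ℕ} (hc : Good c) (x0 x1 x2 x3 : V) :
    Cert (gT (sig c x0 x1 x2 x3)) (ext c x0 x1 x2 x3) := by
  by_cases hr : ridx (sig c x0 x1 x2 x3) < 32
  · obtain ⟨K, L, e, h⟩ := certR_entry (certR_all _ hr)
    refine ⟨K, fun k a => L k (lk8 (ITf (ridx (sig c x0 x1 x2 x3))) a),
      fun m a => e m (lk8 (ITf (ridx (sig c x0 x1 x2 x3))) a), fun y z => ?_⟩
    have hf : ∀ y, lk8 (FLf (ridx (sig c x0 x1 x2 x3)))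
        (lk8 (ITf (ridx (sig c x0 x1 x2 x3))) (ext c x0 x1 x2 x3 y)) = ext c x0 x1 x2 x3 y := by
      intro y
      have h1 := allN_spec chkFlag _ (sig_lt hc x0 x1 x2 x3)
      have h2 : Nat.ble 32 (ridx (sig c x0 x1 x2 x3)) = false := by
        rw [Bool.eq_false_iff]
        exact fun h => absurd (Nat.le_of_ble_eq_true h) (not_le.2 hr)
      rw [h2, cond_false] at h1
      have h3 := allN_spec h1 _ (ext_lt hc x0 x1 x2 x3 y)
      rw [badE_false hc] at h3
      exact Nat.eq_of_beq_eq_true h3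
    unfold gT
    rw [if_pos ⟨hr, ext_lt hc _ _ _ _ _, ext_lt hc _ _ _ _ _⟩, ent_zero,
      h _ (idx_lt hr (ext_lt hc _ _ _ _ _)) _ (idx_lt hr (ext_lt hc _ _ _ _ _)), hf y, hf z]
  · refine ⟨0, fun _ _ => 0, fun _ _ => 0, fun y z => ?_⟩
    unfold gT
    rw [if_neg fun h => hr h.1]
    simp

end EulF
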