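import Pool.Agent.Lib.EulF.Pack

/-!
# The certificate of one type
-/

set_option autoImplicit false

namespace EulF

open Finset

/-- The digits of `S` are the signs of the flags. -/
noncomputable def sgOK (n FL S m : ℕ) : Bool :=
  allN n fun j => Nat.beq (lk48 S j) (Nat.mod (Nat.add (dgn (lk8 FL j) m) 1) 3)

/-- The certificate of type `r`. -/
def CertR (r : ℕ) : Prop :=
  ∃ (Bs : List ℕ) (E0 E1 E2 E3 S0 S1 S2 S3 : ℕ),
    cond (certOK (nf r) (off r) (Tf r) Bs E0 E1 E2 E3 S0 S1 S2 S3)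
      (cond (sgOK (nf r) (FLf r) S0 0) (cond (sgOK (nf r) (FLf r) S1 1)
        (cond (sgOK (nf r) (FLf r) S2 2) (cond (sgOK (nf r) (FLf r) S3 3)
          (cond (Nat.ble 1099511627776 (off r)) (Nat.ble (off r) 70368744177664)
            false) false) false) false) false) false = true

theorem cond_true {a b : Bool} (h : cond a b false = true) : a = true ∧ b = true := by
  cases a
  · exact absurd h Bool.false_ne_true
  · exact ⟨rfl, h⟩

theorem vec_sgn {n FL S m j : ℕ} (h : sgOK n FL S m = true) (hj : j < n) :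
    vec 1 S j = sgn (dg (lk8 FL j) m) := by
  have h1 := Nat.eq_of_beq_eq_true (allN_spec h j hj)
  have h2 : dgn (lk8 FL j) m < 3 := Nat.mod_lt _ (by norm_num)
  have h3 : dg (lk8 FL j) m = dgn (lk8 FL j) m := rfl
  have h4 : lk48 S j = (dgn (lk8 FL j) m + 1) % 3 := h1
  unfold vec
  rw [h3, h4]
  generalize dgn (lk8 FL j) m = d at h2
  interval_cases d <;> simp [sgn]

theorem certR_entry {r : ℕ} (h : CertR r) : ∃ (K : ℕ) (L : Fin K → ℕ → ℤ) (e : Fin 4 → ℕ → ℤ),
    ∀ i < nf r, ∀ j < nf r, (lk48 (Tf r) (i * nf r + j) : ℤ) - off r =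
      2 * ∑ k, L k i * L k j +
        ∑ m : Fin 4, (e m i * sgn (dg (lk8 (FLf r) j) m) + sgn (dg (lk8 (FLf r) i) m) * e m j) := by
  obtain ⟨Bs, E0, E1, E2, E3, S0, S1, S2, S3, h⟩ := h
  obtain ⟨h1, h⟩ := cond_true h
  obtain ⟨s0, h⟩ := cond_true h
  obtain ⟨s1, h⟩ := cond_true h
  obtain ⟨s2, h⟩ := cond_true h
  obtain ⟨s3, h⟩ := cond_true h
  obtain ⟨o1, o2⟩ := cond_true h
  have o1' := Nat.le_of_ble_eq_true o1
  have o2' := Nat.le_of_ble_eq_true o2
  refine ⟨Bs.length, fun k i => vec oL (Bs[k]) i, ![vec oE E0, vec oE E1, vec oE E2, vec oE E3], ?_⟩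
  intro i hi j hj
  rw [cert_entry (by norm_num; exact o1') (by norm_num; exact o2') h1 i hi j hj]
  unfold cval
  rw [vec_sgn s0 hi, vec_sgn s0 hj, vec_sgn s1 hi, vec_sgn s1 hj, vec_sgn s2 hi, vec_sgn s2 hj,
    vec_sgn s3 hi, vec_sgn s3 hj, ← Fin.sum_univ_fun_getElem Bs (fun B => vec oL B i * vec oL B j),
    Fin.sum_univ_four]
  simp only [Matrix.cons_val_zero, Matrix.cons_val_one, Matrix.cons_val]
  simp
  ring

end EulF
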