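import Pool.Agent.Lib.EulF.Fun

/-!
# The pointwise inequality on the representatives, part 2
-/

set_option autoImplicit false
set_option maxRecDepth 100000

namespace EulF

theorem chunk4 : chkRange 160 40 = true := by decide +kernel

theorem chunk5 : chkRange 200 40 = true := by decide +kernel

end EulF
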