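import Mathlib

/-!
# Eulerian oriented graphs without directed triangles: flag sums over six vertices

General part: pair codes, the sum of squares inequality, symmetrisation over all permutations of the
six positions.
-/

set_option autoImplicit false

namespace EulF

open Finset

/-- Reversal of a pair code: `0 ↦ 0`, `1 ↦ 2`, `2 ↦ 1`. -/
def fl (d : ℕ) : ℕ := Nat.mod (Nat.sub 3 d) 3

/-- The sign of a pair code. -/
def sgn (d : ℕ) : ℤ := if d = 1 then 1 else if d = 2 then -1 else 0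

/-- Pair codes of an oriented graph without directed triangles: `c u v = 1` if `u → v`, `2` if `v → u`,
`0` otherwise. -/
structure Good {V : Type*} (c : V → V → ℕ) : Prop where
  le : ∀ u v, c u v ≤ 2
  anti : ∀ u v, c v u = fl (c u v)
  tri : ∀ u v w, ¬ (c u v = 1 ∧ c v w = 1 ∧ c w u = 1)

/-- The code of the graph induced by four positions. -/
def sig {V : Type*} (c : V → V → ℕ) (x0 x1 x2 x3 : V) : ℕ :=
  c x0 x1 + 3 * c x0 x2 + 9 * c x1 x2 + 27 * c x0 x3 + 81 * c x1 x3 + 243 * c x2 x3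

/-- The code of the adjacencies of `y` with four positions. -/
def ext {V : Type*} (c : V → V → ℕ) (x0 x1 x2 x3 y : V) : ℕ :=
  c y x0 + 3 * c y x1 + 9 * c y x2 + 27 * c y x3

/-- Base three digit. -/
def dg (a i : ℕ) : ℕ := a / 3 ^ i % 3

theorem dg_ext {V : Type*} {c : V → V → ℕ} (hc : Good c) (x : Fin 4 → V) (y : V) (i : Fin 4) :
    dg (ext c (x 0) (x 1) (x 2) (x 3) y) i = c y (x i) := by
  have h0 := hc.le y (x 0)
  have h1 := hc.le y (x 1)
  have h2 := hc.le y (x 2)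
  have h3 := hc.le y (x 3)
  fin_cases i <;> simp [dg, ext] <;> omega

/-- A certificate that `g` is a sum of squares modulo the balance conditions. -/
def Cert {V : Type*} (g : ℕ → ℕ → ℤ) (x : V → ℕ) : Prop :=
  ∃ (K : ℕ) (L : Fin K → ℕ → ℤ) (e : Fin 4 → ℕ → ℤ), ∀ y z,
    g (x y) (x z) = 2 * ∑ k, L k (x y) * L k (x z) +
      ∑ i : Fin 4, (e i (x y) * sgn (dg (x z) i) + sgn (dg (x y) i) * e i (x z))

theorem sum_cert_nonneg {V : Type*} [Fintype V] {c : V → V → ℕ} (hc : Good c)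
    (hE : ∀ u, ∑ y, sgn (c y u) = 0) (g : ℕ → ℕ → ℤ) (x : Fin 4 → V)
    (h : Cert g (ext c (x 0) (x 1) (x 2) (x 3))) :
    0 ≤ ∑ y, ∑ z, g (ext c (x 0) (x 1) (x 2) (x 3) y) (ext c (x 0) (x 1) (x 2) (x 3) z) := by
  obtain ⟨K, L, e, h⟩ := h
  set a : V → ℕ := ext c (x 0) (x 1) (x 2) (x 3) with ha
  have hs : ∀ i : Fin 4, ∑ y, sgn (dg (a y) i) = 0 := by
    intro i
    rw [← hE (x i)]
    exact Finset.sum_congr rfl fun y _ => by rw [ha, dg_ext hc]
  have key : ∀ (n : ℕ) (F : Fin n → V → V → ℤ), ∑ y, ∑ z, ∑ k, F k y z = ∑ k, ∑ y, ∑ z, F k y z := by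
    intro n F
    calc ∑ y, ∑ z, ∑ k, F k y z = ∑ y, ∑ k, ∑ z, F k y z :=
          Finset.sum_congr rfl fun y _ => Finset.sum_comm
      _ = ∑ k, ∑ y, ∑ z, F k y z := Finset.sum_comm
  have hA : ∑ y, ∑ z, 2 * ∑ k, L k (a y) * L k (a z) = 2 * ∑ k, (∑ y, L k (a y)) ^ 2 := by
    simp_rw [← Finset.mul_sum]
    rw [key K (fun k y z => L k (a y) * L k (a z))]
    congr 1
    exact Finset.sum_congr rfl fun k _ => by rw [pow_two, Finset.sum_mul_sum]
  have hB : ∑ y, ∑ z, ∑ i : Fin 4, (e i (a y) * sgn (dg (a z) i) + sgn (dg (a y) i) * e i (a z)) =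
      ∑ i : Fin 4, ((∑ y, e i (a y)) * (∑ z, sgn (dg (a z) i)) +
        (∑ y, sgn (dg (a y) i)) * (∑ z, e i (a z))) := by
    rw [key 4 (fun i y z => e i (a y) * sgn (dg (a z) i) + sgn (dg (a y) i) * e i (a z))]
    refine Finset.sum_congr rfl fun i _ => ?_
    rw [Finset.sum_mul_sum, Finset.sum_mul_sum]
    simp_rw [Finset.sum_add_distrib]
  have hT : ∑ y, ∑ z, g (a y) (a z) = ∑ y, ∑ z, 2 * ∑ k, L k (a y) * L k (a z) +
      ∑ y, ∑ z, ∑ i : Fin 4, (e i (a y) * sgn (dg (a z) i) + sgn (dg (a y) i) * e i (a z)) := by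
    rw [← Finset.sum_add_distrib]
    refine Finset.sum_congr rfl fun y _ => ?_
    rw [← Finset.sum_add_distrib]
    exact Finset.sum_congr rfl fun z _ => h y z
  rw [hT, hA, hB]
  simp only [hs, mul_zero, zero_mul, add_zero, Finset.sum_const_zero]
  have : 0 ≤ ∑ k, (∑ y, L k (a y)) ^ 2 := Finset.sum_nonneg fun k _ => sq_nonneg _
  linarith

/-- `(Fin 6 → V) ≃ (Fin 4 → V) × V × V`. -/
def split6 (V : Type*) : (Fin 6 → V) ≃ (Fin 4 → V) × V × V where
  toFun φ := (fun i => φ (Fin.castLE (by norm_num) i), φ 4, φ 5)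
  invFun p := ![p.1 0, p.1 1, p.1 2, p.1 3, p.2.1, p.2.2]
  left_inv φ := by
    funext i
    fin_cases i <;> rfl
  right_inv p := by
    obtain ⟨x, y, z⟩ := p
    refine Prod.ext ?_ (Prod.ext rfl rfl)
    funext i
    fin_cases i <;> rfl

/-- The term attached to a tuple of six vertices. -/
def term (g : ℕ → ℕ → ℕ → ℤ) {V : Type*} (c : V → V → ℕ) (x0 x1 x2 x3 x4 x5 : V) : ℤ :=
  g (sig c x0 x1 x2 x3) (ext c x0 x1 x2 x3 x4) (ext c x0 x1 x2 x3 x5)

theorem sum_term_nonneg {V : Type*} [Fintype V] {c : V → V → ℕ} (hc : Good c)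
    (hE : ∀ u, ∑ y, sgn (c y u) = 0) (g : ℕ → ℕ → ℕ → ℤ)
    (h : ∀ x : Fin 4 → V, Cert (g (sig c (x 0) (x 1) (x 2) (x 3))) (ext c (x 0) (x 1) (x 2) (x 3))) :
    0 ≤ ∑ φ : Fin 6 → V, term g c (φ 0) (φ 1) (φ 2) (φ 3) (φ 4) (φ 5) := by
  have h1 : ∑ φ : Fin 6 → V, term g c (φ 0) (φ 1) (φ 2) (φ 3) (φ 4) (φ 5) =
      ∑ p : (Fin 4 → V) × V × V, term g c (p.1 0) (p.1 1) (p.1 2) (p.1 3) p.2.1 p.2.2 :=
    Fintype.sum_equiv (split6 V) _ _ fun φ => rfl
  rw [h1, Fintype.sum_prod_type]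
  refine Finset.sum_nonneg fun x _ => ?_
  rw [Fintype.sum_prod_type]
  exact sum_cert_nonneg hc hE _ x (h x)

/-- Sum of the terms over all arrangements of six vertices. -/
def J (g : ℕ → ℕ → ℕ → ℤ) (h : Fin 6 → Fin 6 → ℕ) : ℤ :=
  ∑ π : Equiv.Perm (Fin 6), term g h (π 0) (π 1) (π 2) (π 3) (π 4) (π 5)

theorem J_perm (g : ℕ → ℕ → ℕ → ℤ) (h : Fin 6 → Fin 6 → ℕ) (f : Equiv.Perm (Fin 6)) :
    J g (fun i j => h (f i) (f j)) = J g h := by
  unfold J
  exact Fintype.sum_equiv (Equiv.mulLeft f) _ _ fun π => rfl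

theorem sum_J {V : Type*} [Fintype V] (c : V → V → ℕ) (g : ℕ → ℕ → ℕ → ℤ) :
    ∑ φ : Fin 6 → V, J g (fun i j => c (φ i) (φ j)) =
      720 * ∑ φ : Fin 6 → V, term g c (φ 0) (φ 1) (φ 2) (φ 3) (φ 4) (φ 5) := by
  unfold J
  rw [Finset.sum_comm]
  have h1 : ∀ π : Equiv.Perm (Fin 6), ∑ φ : Fin 6 → V,
      term g (fun i j => c (φ i) (φ j)) (π 0) (π 1) (π 2) (π 3) (π 4) (π 5) =
      ∑ φ : Fin 6 → V, term g c (φ 0) (φ 1) (φ 2) (φ 3) (φ 4) (φ 5) := by
    intro π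
    exact Fintype.sum_equiv (Equiv.arrowCongr π.symm (Equiv.refl V)) _ _ fun φ => rfl
  rw [Finset.sum_congr rfl fun π _ => h1 π, Finset.sum_const, Finset.card_univ, Fintype.card_perm,
    Fintype.card_fin]
  simp [Nat.factorial]

/-- Number of arcs of a pattern. -/
def arcs (h : Fin 6 → Fin 6 → ℕ) : ℤ := ∑ i, ∑ j, if h i j = 1 then 1 else 0

theorem arcs_perm (h : Fin 6 → Fin 6 → ℕ) (f : Equiv.Perm (Fin 6)) :
    arcs (fun i j => h (f i) (f j)) = arcs h := by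
  unfold arcs
  exact Fintype.sum_equiv f _ _ fun i => Fintype.sum_equiv f _ _ fun j => rfl

theorem sum_pair {V : Type*} [Fintype V] (F : V → V → ℤ) {i j : Fin 6} (hij : i ≠ j) :
    ∑ φ : Fin 6 → V, F (φ i) (φ j) = (Fintype.card V : ℤ) ^ 4 * ∑ u, ∑ v, F u v := by
  have h0 : ∑ φ : Fin 6 → V, F (φ 4) (φ 5) = (Fintype.card V : ℤ) ^ 4 * ∑ u, ∑ v, F u v := by
    have h1 : ∑ φ : Fin 6 → V, F (φ 4) (φ 5) = ∑ p : (Fin 4 → V) × V × V, F p.2.1 p.2.2 :=
      Fintype.sum_equiv (split6 V) _ _ fun φ => rfl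
    rw [h1, Fintype.sum_prod_type]
    change ∑ _x : Fin 4 → V, ∑ p : V × V, F p.1 p.2 = _
    rw [Finset.sum_const, Fintype.sum_prod_type, Finset.card_univ]
    simp
  rw [← h0]
  have hk : Equiv.swap 4 i j ≠ 4 := by
    intro h
    have := (Equiv.swap_apply_eq_iff).1 h
    rw [Equiv.swap_apply_left] at this
    exact hij this.symm
  have e1 : (Equiv.swap 4 i * Equiv.swap 5 (Equiv.swap 4 i j)) 4 = i := by
    rw [Equiv.Perm.mul_apply, Equiv.swap_apply_of_ne_of_ne (by decide) hk.symm, Equiv.swap_apply_left]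
  have e2 : (Equiv.swap 4 i * Equiv.swap 5 (Equiv.swap 4 i j)) 5 = j := by
    rw [Equiv.Perm.mul_apply, Equiv.swap_apply_left, Equiv.swap_apply_self]
  refine Fintype.sum_equiv (Equiv.arrowCongr
    (Equiv.swap 4 i * Equiv.swap 5 (Equiv.swap 4 i j)).symm (Equiv.refl V)) _ _ fun φ => ?_
  simp only [Equiv.arrowCongr_apply, Equiv.symm_symm, Equiv.coe_refl, Function.comp_apply, id_eq]
  rw [e1, e2]

theorem five_ne (i : Fin 6) : (Finset.univ.filter fun j : Fin 6 => ¬ j = i).card = 5 := by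
  revert i; decide

theorem sum_arcs {V : Type*} [Fintype V] {c : V → V → ℕ} (hd : ∀ u, c u u = 0) :
    ∑ φ : Fin 6 → V, arcs (fun i j => c (φ i) (φ j)) =
      30 * ((Fintype.card V : ℤ) ^ 4 * ∑ u, ∑ v, if c u v = 1 then (1 : ℤ) else 0) := by
  unfold arcs
  rw [Finset.sum_comm]
  have h1 : ∀ i : Fin 6, ∑ φ : Fin 6 → V, ∑ j, (if c (φ i) (φ j) = 1 then (1 : ℤ) else 0) =
      5 * ((Fintype.card V : ℤ) ^ 4 * ∑ u, ∑ v, if c u v = 1 then (1 : ℤ) else 0) := by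
    intro i
    rw [Finset.sum_comm]
    have h2 : ∀ j : Fin 6, ∑ φ : Fin 6 → V, (if c (φ i) (φ j) = 1 then (1 : ℤ) else 0) =
        if j = i then 0 else
          ((Fintype.card V : ℤ) ^ 4 * ∑ u, ∑ v, if c u v = 1 then (1 : ℤ) else 0) := by
      intro j
      split_ifs with hji
      · subst hji
        simp [hd]
      · exact sum_pair (fun u v => if c u v = 1 then (1 : ℤ) else 0) (Ne.symm hji)
    rw [Finset.sum_congr rfl fun j _ => h2 j, Finset.sum_ite, Finset.sum_const_zero, zero_add,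
      Finset.sum_const]
    rw [five_ne i]
    simp
  rw [Finset.sum_congr rfl fun i _ => h1 i, Finset.sum_const, Finset.card_univ, Fintype.card_fin]
  simp
  ring

theorem Good.diag {V : Type*} {c : V → V → ℕ} (hc : Good c) (u : V) : c u u = 0 := by
  have h1 := hc.anti u u
  have h2 := hc.le u u
  generalize c u u = d at h1 h2
  interval_cases d
  · rfl
  · exact absurd h1 (by decide)
  · exact absurd h1 (by decide)

theorem Good.comp {V W : Type*} {c : V → V → ℕ} (hc : Good c) (φ : W → V) :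
    Good (fun i j => c (φ i) (φ j)) :=
  ⟨fun _ _ => hc.le _ _, fun _ _ => hc.anti _ _, fun _ _ _ => hc.tri _ _ _⟩

/-- The bound on the number of arcs, from a pointwise bound on patterns of six vertices. -/
theorem arcs_bound {V : Type*} [Fintype V] {c : V → V → ℕ} (hc : Good c)
    (hE : ∀ u, ∑ y, sgn (c y u) = 0) (g : ℕ → ℕ → ℕ → ℤ)
    (h : ∀ x : Fin 4 → V, Cert (g (sig c (x 0) (x 1) (x 2) (x 3))) (ext c (x 0) (x 1) (x 2) (x 3)))
    (C D : ℤ) (hb : ∀ p : Fin 6 → Fin 6 → ℕ, Good p → J g p + 2 * D * arcs p ≤ 2 * C) :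
    30 * D * ((Fintype.card V : ℤ) ^ 4 * ∑ u, ∑ v, if c u v = 1 then (1 : ℤ) else 0) ≤
      C * (Fintype.card V : ℤ) ^ 6 := by
  have h1 : 0 ≤ ∑ φ : Fin 6 → V, J g (fun i j => c (φ i) (φ j)) := by
    rw [sum_J]
    have := sum_term_nonneg hc hE g h
    linarith
  have h2 : ∑ φ : Fin 6 → V, (J g (fun i j => c (φ i) (φ j)) +
      2 * D * arcs (fun i j => c (φ i) (φ j))) ≤ ∑ φ : Fin 6 → V, 2 * C :=
    Finset.sum_le_sum fun φ _ => hb _ (hc.comp φ)
  rw [Finset.sum_add_distrib, ← Finset.mul_sum, sum_arcs hc.diag, Finset.sum_const,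
    Finset.card_univ] at h2
  simp only [Fintype.card_pi, Finset.prod_const, Finset.card_univ, Fintype.card_fin,
    nsmul_eq_mul, Nat.cast_pow] at h2
  nlinarith [h1, h2]

end EulF
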