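import Pool.Agent.Lib.EulF.Core

/-!
# Evaluation of a sum over all permutations of six positions
-/

set_option autoImplicit false

namespace EulF

open Finset

/-- The complement of the `k`-th pair, followed by the pair. -/
def tb (k : Fin 15) : Fin 6 → Fin 6 :=
  (![![2, 3, 4, 5, 0, 1], ![1, 3, 4, 5, 0, 2], ![1, 2, 4, 5, 0, 3], ![1, 2, 3, 5, 0, 4],
    ![1, 2, 3, 4, 0, 5], ![0, 3, 4, 5, 1, 2], ![0, 2, 4, 5, 1, 3], ![0, 2, 3, 5, 1, 4],
    ![0, 2, 3, 4, 1, 5], ![0, 1, 4, 5, 2, 3], ![0, 1, 3, 5, 2, 4], ![0, 1, 3, 4, 2, 5],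
    ![0, 1, 2, 5, 3, 4], ![0, 1, 2, 4, 3, 5], ![0, 1, 2, 3, 4, 5]] : Fin 15 → Fin 6 → Fin 6) k

theorem tb_bij : ∀ k : Fin 15, Function.Injective (tb k) := by decide

/-- The permutation `tb k`. -/
noncomputable def cp (k : Fin 15) : Equiv.Perm (Fin 6) :=
  Equiv.ofBijective (tb k) (Finite.injective_iff_bijective.1 (tb_bij k))

theorem cp_apply (k : Fin 15) (i : Fin 6) : cp k i = tb k i := rfl

/-- Extension of a permutation of four positions to six. -/
def kp (τ : Equiv.Perm (Fin 4)) : Equiv.Perm (Fin 6) :=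
  ((finSumFinEquiv (m := 4) (n := 2)).symm.trans (Equiv.sumCongr τ (Equiv.refl (Fin 2)))).trans
    finSumFinEquiv

theorem kp_lt (τ : Equiv.Perm (Fin 4)) (i : Fin 4) :
    kp τ (Fin.castAdd 2 i) = Fin.castAdd 2 (τ i) := by
  change finSumFinEquiv (Sum.map τ id (finSumFinEquiv.symm (Fin.castAdd 2 i))) = _
  rw [finSumFinEquiv_symm_apply_castAdd]
  rfl

theorem kp_ge (τ : Equiv.Perm (Fin 4)) (i : Fin 2) :
    kp τ (Fin.natAdd 4 i) = Fin.natAdd 4 i := by
  change finSumFinEquiv (Sum.map τ id (finSumFinEquiv.symm (Fin.natAdd 4 i))) = _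
  rw [finSumFinEquiv_symm_apply_natAdd]
  rfl

theorem kp_four (τ : Equiv.Perm (Fin 4)) : kp τ 4 = 4 := kp_ge τ 0

theorem kp_five (τ : Equiv.Perm (Fin 4)) : kp τ 5 = 5 := kp_ge τ 1

/-- Swap of the last two positions, or not. -/
def sp (ε : Bool) : Equiv.Perm (Fin 6) := if ε then Equiv.swap 4 5 else 1

theorem sp_lt (ε : Bool) (i : Fin 4) : sp ε (Fin.castAdd 2 i) = Fin.castAdd 2 i := by
  revert i
  cases ε <;> decide

/-- Every permutation of six positions arises exactly once. -/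
noncomputable def mk6 (p : Fin 15 × Equiv.Perm (Fin 4) × Bool) : Equiv.Perm (Fin 6) :=
  cp p.1 * kp p.2.1 * sp p.2.2

theorem pair_inj : ∀ k k' : Fin 15, ({tb k 4, tb k 5} : Finset (Fin 6)) = {tb k' 4, tb k' 5} → k = k' := by
  decide

theorem mk6_pair (k : Fin 15) (τ : Equiv.Perm (Fin 4)) (ε : Bool) :
    ({mk6 (k, τ, ε) 4, mk6 (k, τ, ε) 5} : Finset (Fin 6)) = {tb k 4, tb k 5} := by
  cases ε
  · simp [mk6, sp, kp_four, kp_five, cp_apply]
  · simp only [mk6, sp, if_true, Equiv.Perm.mul_apply, Equiv.swap_apply_left, Equiv.swap_apply_right,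
      kp_four, kp_five, cp_apply]
    exact Finset.pair_comm _ _

theorem mk6_inj : Function.Injective mk6 := by
  rintro ⟨k, τ, ε⟩ ⟨k', τ', ε'⟩ h
  have hk : k = k' := by
    apply pair_inj
    rw [← mk6_pair k τ ε, ← mk6_pair k' τ' ε', h]
  subst hk
  have h1 : kp τ * sp ε = kp τ' * sp ε' := by
    have : cp k * (kp τ * sp ε) = cp k * (kp τ' * sp ε') := by
      simpa [mk6, mul_assoc] using h
    exact mul_left_cancel this
  have hε : ε = ε' := by
    have h2 : kp τ (sp ε 4) = kp τ' (sp ε' 4) := congrArg (fun f : Equiv.Perm (Fin 6) => f 4) h1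
    have e0 : sp false 4 = 4 := by decide
    have e1 : sp true 4 = 5 := by decide
    cases ε <;> cases ε'
    · rfl
    · rw [e0, e1, kp_four, kp_five] at h2
      exact absurd h2 (by decide)
    · rw [e0, e1, kp_four, kp_five] at h2
      exact absurd h2 (by decide)
    · rfl
  subst hε
  have h2 : kp τ = kp τ' := mul_right_cancel h1
  have hτ : τ = τ' := by
    ext i
    have h3 := congrArg (fun f : Equiv.Perm (Fin 6) => f (Fin.castAdd 2 i)) h2
    simp only [kp_lt] at h3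
    exact congrArg Fin.val (Fin.castAdd_injective 4 2 h3)
  subst hτ
  rfl

theorem mk6_bij : Function.Bijective mk6 := by
  rw [Fintype.bijective_iff_injective_and_card]
  refine ⟨mk6_inj, ?_⟩
  simp [Fintype.card_perm, Nat.factorial]

/-- The 24 permutations of four positions. -/
def p4 (t : Fin 24) : Fin 4 → Fin 4 :=
  (![![0, 1, 2, 3], ![0, 1, 3, 2], ![0, 2, 1, 3], ![0, 2, 3, 1], ![0, 3, 1, 2], ![0, 3, 2, 1],
    ![1, 0, 2, 3], ![1, 0, 3, 2], ![1, 2, 0, 3], ![1, 2, 3, 0], ![1, 3, 0, 2], ![1, 3, 2, 0],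
    ![2, 0, 1, 3], ![2, 0, 3, 1], ![2, 1, 0, 3], ![2, 1, 3, 0], ![2, 3, 0, 1], ![2, 3, 1, 0],
    ![3, 0, 1, 2], ![3, 0, 2, 1], ![3, 1, 0, 2], ![3, 1, 2, 0], ![3, 2, 0, 1], ![3, 2, 1, 0]] :
    Fin 24 → Fin 4 → Fin 4) t

theorem p4_bij : ∀ t : Fin 24, Function.Injective (p4 t) := by decide

theorem p4_inj : ∀ t t' : Fin 24, (∀ i, p4 t i = p4 t' i) → t = t' := by decide

/-- The permutation `p4 t`. -/
noncomputable def pp (t : Fin 24) : Equiv.Perm (Fin 4) :=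
  Equiv.ofBijective (p4 t) (Finite.injective_iff_bijective.1 (p4_bij t))

theorem pp_bij : Function.Bijective pp := by
  rw [Fintype.bijective_iff_injective_and_card]
  refine ⟨fun t t' h => p4_inj t t' fun i => ?_, ?_⟩
  · exact congrArg (fun f : Equiv.Perm (Fin 4) => f i) h
  · simp [Fintype.card_perm, Nat.factorial]

/-- The first four positions of `tb k`. -/
def tS (k : Fin 15) (i : Fin 4) : Fin 6 := tb k (Fin.castAdd 2 i)

theorem J_eval (g : ℕ → ℕ → ℕ → ℤ) (hg : ∀ s a b, g s a b = g s b a) (h : Fin 6 → Fin 6 → ℕ) :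
    J g h = 2 * ∑ k : Fin 15, ∑ t : Fin 24,
      term g h (tS k (p4 t 0)) (tS k (p4 t 1)) (tS k (p4 t 2)) (tS k (p4 t 3)) (tb k 4) (tb k 5) := by
  have hsymm : ∀ x0 x1 x2 x3 x4 x5 : Fin 6, term g h x0 x1 x2 x3 x4 x5 = term g h x0 x1 x2 x3 x5 x4 :=
    fun _ _ _ _ _ _ => hg _ _ _
  unfold J
  rw [← mk6_bij.sum_comp, Fintype.sum_prod_type, Finset.mul_sum]
  refine Finset.sum_congr rfl fun k _ => ?_
  rw [Fintype.sum_prod_type, ← pp_bij.sum_comp, Finset.mul_sum]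
  refine Finset.sum_congr rfl fun t _ => ?_
  rw [Fintype.sum_bool]
  have hlt : ∀ (ε : Bool) (i : Fin 4), mk6 (k, pp t, ε) (Fin.castAdd 2 i) = tS k (p4 t i) := by
    intro ε i
    simp only [mk6, Equiv.Perm.mul_apply, sp_lt, kp_lt]
    rfl
  have h0 := fun ε => hlt ε 0
  have h1 := fun ε => hlt ε 1
  have h2 := fun ε => hlt ε 2
  have h3 := fun ε => hlt ε 3
  have e0 : (Fin.castAdd 2 (0 : Fin 4) : Fin 6) = 0 := rfl
  have e1 : (Fin.castAdd 2 (1 : Fin 4) : Fin 6) = 1 := rfl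
  have e2 : (Fin.castAdd 2 (2 : Fin 4) : Fin 6) = 2 := rfl
  have e3 : (Fin.castAdd 2 (3 : Fin 4) : Fin 6) = 3 := rfl
  rw [e0] at h0
  rw [e1] at h1
  rw [e2] at h2
  rw [e3] at h3
  rw [h0, h1, h2, h3, h0, h1, h2, h3]
  have ht4 : mk6 (k, pp t, true) 4 = tb k 5 := by
    simp [mk6, sp, kp_five, cp_apply]
  have ht5 : mk6 (k, pp t, true) 5 = tb k 4 := by
    simp [mk6, sp, kp_four, cp_apply]
  have hf4 : mk6 (k, pp t, false) 4 = tb k 4 := by
    simp [mk6, sp, kp_four, cp_apply]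
  have hf5 : mk6 (k, pp t, false) 5 = tb k 5 := by
    simp [mk6, sp, kp_five, cp_apply]
  rw [ht4, ht5, hf4, hf5, hsymm _ _ _ _ (tb k 5) (tb k 4)]
  ring

end EulF
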