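import Pool.Agent.Lib.EulF.Fun
import Pool.Agent.Lib.EulF.Perm6

/-!
# The certificate function and the tables as functions
-/

set_option autoImplicit false

namespace EulF

open Finset

/-- Bounded universal quantification. -/
noncomputable def allN (n : ℕ) (f : ℕ → Bool) : Bool :=
  Nat.rec (motive := fun _ => Bool) true (fun i ih => cond (f i) ih false) n

theorem allN_spec {n : ℕ} {f : ℕ → Bool} (h : allN n f = true) : ∀ i < n, f i = true := by
  induction n with
  | zero => intro i hi; omega
  | succ n ih =>
    intro i hi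
    have h' : cond (f n) (allN n f) false = true := h
    cases hf : f n with
    | false => rw [hf] at h'; exact absurd h' Bool.false_ne_true
    | true =>
      rw [hf] at h'
      rcases Nat.lt_succ_iff_lt_or_eq.1 hi with h1 | h1
      · exact ih h' i h1
      · rw [h1]; exact hf

theorem all3_spec {f : ℕ → Bool} (h : all3 f = true) : ∀ i ≤ 2, f i = true := by
  have h' : cond (f 0) (cond (f 1) (f 2) false) false = true := h
  intro i hi
  cases h0 : f 0 <;> cases h1 : f 1 <;> cases h2 : f 2 <;> simp_all
  interval_cases i <;> assumption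

/-- Position of a pair in a code. -/
def ps (i j : ℕ) : ℕ := Nat.add (Nat.div (Nat.mul j (Nat.sub j 1)) 2) i

/-- Pair codes of the graph with a given code. -/
def hN (R i j : ℕ) : ℕ :=
  cond (Nat.ble (Nat.succ i) j) (dgn R (ps i j)) (cond (Nat.ble (Nat.succ j) i) (fl (dgn R (ps j i))) 0)

/-- The permutations of four positions. -/
def p4n (t i : ℕ) : ℕ :=
  Nat.mod (Nat.shiftRight P4T (Nat.add (Nat.mul 8 t) (Nat.mul 2 i))) 4

/-- Action of a permutation on codes of graphs on four vertices. -/
def actS (t s : ℕ) : ℕ :=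
  Nat.add (Nat.add (Nat.add (Nat.add (Nat.add (hN s (p4n t 0) (p4n t 1))
    (Nat.mul 3 (hN s (p4n t 0) (p4n t 2)))) (Nat.mul 9 (hN s (p4n t 1) (p4n t 2))))
    (Nat.mul 27 (hN s (p4n t 0) (p4n t 3)))) (Nat.mul 81 (hN s (p4n t 1) (p4n t 3))))
    (Nat.mul 243 (hN s (p4n t 2) (p4n t 3)))

/-- Action of a permutation on codes of extensions. -/
def actE (t a : ℕ) : ℕ :=
  Nat.add (Nat.add (Nat.add (dgn a (p4n t 0)) (Nat.mul 3 (dgn a (p4n t 1))))
    (Nat.mul 9 (dgn a (p4n t 2)))) (Nat.mul 27 (dgn a (p4n t 3)))

/-- The type of a code, `32` if it is not a representative. -/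
def ridx (s : ℕ) : ℕ := lk8 RIDX s

/-- Flag index table. -/
def ITf (r : ℕ) : ℕ := pk r fun a _ _ => a

/-- Number of flags. -/
def nf (r : ℕ) : ℕ := pk r fun _ b _ => b

/-- Certificate matrix. -/
def Tf (r : ℕ) : ℕ := pk r fun _ _ c => c

theorem pk_eq {α : Type} (r : ℕ) (k : ℕ → ℕ → ℕ → α) : pk r k = k (ITf r) (nf r) (Tf r) := by
  unfold ITf nf Tf pk
  cases Nat.ble r 15 <;> try simp only
  · cases Nat.ble r 23 <;> try simp only
    · cases Nat.ble r 27 <;> try simp only
      · cases Nat.ble r 29 <;> try simp only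
        · cases Nat.ble r 30 <;> rfl
        · cases Nat.ble r 28 <;> rfl
      · cases Nat.ble r 25 <;> try simp only
        · cases Nat.ble r 26 <;> rfl
        · cases Nat.ble r 24 <;> rfl
    · cases Nat.ble r 19 <;> try simp only
      · cases Nat.ble r 21 <;> try simp only
        · cases Nat.ble r 22 <;> rfl
        · cases Nat.ble r 20 <;> rfl
      · cases Nat.ble r 17 <;> try simp only
        · cases Nat.ble r 18 <;> rfl
        · cases Nat.ble r 16 <;> rfl
  · cases Nat.ble r 7 <;> try simp only
    · cases Nat.ble r 11 <;> try simp only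
      · cases Nat.ble r 13 <;> try simp only
        · cases Nat.ble r 14 <;> rfl
        · cases Nat.ble r 12 <;> rfl
      · cases Nat.ble r 9 <;> try simp only
        · cases Nat.ble r 10 <;> rfl
        · cases Nat.ble r 8 <;> rfl
    · cases Nat.ble r 3 <;> try simp only
      · cases Nat.ble r 5 <;> try simp only
        · cases Nat.ble r 6 <;> rfl
        · cases Nat.ble r 4 <;> rfl
      · cases Nat.ble r 1 <;> try simp only
        · cases Nat.ble r 2 <;> rfl
        · cases Nat.ble r 0 <;> rfl

/-- The table entry. -/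
def ent (r a b t : ℕ) : ℕ := tl (ITf r) (nf r) (Tf r) a b t

/-- The certificate function. -/
def gT (s a b : ℕ) : ℤ :=
  if ridx s < 32 ∧ a < 81 ∧ b < 81 then (ent (ridx s) a b 0 : ℤ) - off (ridx s) else 0

/-- Decoding of a list of permutations. -/
def dec : ℕ → ℕ → List ℕ
  | 0, _ => []
  | f + 1, c => if c ≤ 1 then [] else c % 32 :: dec f (c / 32)

theorem loop_eq (IT n T a b : ℕ) (f c : ℕ) :
    loop IT n T a b f c = ((dec f c).map (tl IT n T a b)).sum := by
  induction f generalizing c with
  | zero => rfl
  | succ f ih =>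
    have h : loop IT n T a b (f + 1) c = cond (Nat.ble c 1) 0
      (Nat.add (tl IT n T a b (Nat.mod c 32)) (loop IT n T a b f (Nat.div c 32))) := rfl
    rw [h, ih]
    by_cases hc : c ≤ 1
    · rw [dec, if_pos hc, Nat.ble_eq_true_of_le hc]
      rfl
    · have : Nat.ble c 1 = false := by
        rw [Bool.eq_false_iff]
        exact fun h => hc (Nat.le_of_ble_eq_true h)
      rw [dec, if_neg hc, this]
      rfl

/-- The list of permutations taking a labelled graph to its representative. -/
def isoL (s : ℕ) : List ℕ := dec 24 (iso s / 32)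

theorem isoN_eq (s a b : ℕ) :
    isoN s a b = ((isoL s).map (ent (iso s % 32) a b)).sum := by
  have h : isoN s a b = pk (iso s % 32) fun IT n T => loop IT n T a b 24 (iso s / 32) := rfl
  rw [h, pk_eq, loop_eq]
  rfl

/-- Directed triangle test for codes of three pairs. -/
def tri3 (d01 d12 d02 : ℕ) : Bool :=
  cond (Nat.beq (Nat.add (Nat.add d01 (Nat.mul 3 d12)) (Nat.mul 9 d02)) 22) true
    (Nat.beq (Nat.add (Nat.add d01 (Nat.mul 3 d12)) (Nat.mul 9 d02)) 17)

/-- The graph with the given code on four vertices contains a directed triangle. -/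
def bad4 (s : ℕ) : Bool :=
  cond (tri3 (dgn s 0) (dgn s 2) (dgn s 1)) true
    (cond (tri3 (dgn s 0) (dgn s 4) (dgn s 3)) true
      (cond (tri3 (dgn s 1) (dgn s 5) (dgn s 3)) true
        (tri3 (dgn s 2) (dgn s 5) (dgn s 4))))

/-- The common value of the offset times the number of identifications. -/
def OFF : ℕ := 26388279066624

/-- Check of the list of identifications of a code. -/
def okI (s : ℕ) : Bool :=
  decide ((isoL s).length * off (iso s % 32) = OFF) && decide (isoL s).Nodup &&
    (isoL s).all (fun t => decide (t < 24)) &&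
    (List.range 24).all fun t =>
      if t ∈ isoL s then decide (ridx (actS t s) = iso s % 32) else decide (32 ≤ ridx (actS t s))

end EulF
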