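import Pool.Agent.Lib.EulF.CertAll

/-!
# Evaluation of the symmetrised certificate
-/

set_option autoImplicit false
set_option maxRecDepth 100000

namespace EulF

open Finset

theorem hN_sig {c : Fin 4 → Fin 4 → ℕ} (hc : Good c) (i j : Fin 4) :
    hN (sig c 0 1 2 3) i j = c i j := by
  obtain ⟨s0, s1, s2, s3, s4, s5⟩ := sig_dgn hc (0 : Fin 4) 1 2 3
  have e : ∀ k, k < 6 → dgn (sig c 0 1 2 3) k = dgn (sig c 0 1 2 3) k := fun _ _ => rfl
  have a := hc.anti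
  have d := hc.diag
  fin_cases i <;> fin_cases j
  · exact (d 0).symm
  · exact s0
  · exact s1
  · exact s3
  · change fl (dgn (sig c 0 1 2 3) 0) = c 1 0
    rw [s0, a 0 1]
  · exact (d 1).symm
  · exact s2
  · exact s4
  · change fl (dgn (sig c 0 1 2 3) 1) = c 2 0
    rw [s1, a 0 2]
  · change fl (dgn (sig c 0 1 2 3) 2) = c 2 1
    rw [s2, a 1 2]
  · exact (d 2).symm
  · exact s5
  · change fl (dgn (sig c 0 1 2 3) 3) = c 3 0
    rw [s3, a 0 3]
  · change fl (dgn (sig c 0 1 2 3) 4) = c 3 1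
    rw [s4, a 1 3]
  · change fl (dgn (sig c 0 1 2 3) 5) = c 3 2
    rw [s5, a 2 3]
  · exact (d 3).symm

theorem p4_p4n : ∀ t : Fin 24, ∀ i : Fin 4, ((p4 t i : Fin 4) : ℕ) = p4n t i := by decide +kernel

theorem actS_sig {c : Fin 4 → Fin 4 → ℕ} (hc : Good c) (t : Fin 24) :
    actS t (sig c 0 1 2 3) = sig c (p4 t 0) (p4 t 1) (p4 t 2) (p4 t 3) := by
  have h : ∀ i j : Fin 4, hN (sig c 0 1 2 3) (p4n t i) (p4n t j) = c (p4 t i) (p4 t j) := by
    intro i j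
    rw [← p4_p4n, ← p4_p4n, hN_sig hc]
  have h01 : hN (sig c 0 1 2 3) (p4n t 0) (p4n t 1) = c (p4 t 0) (p4 t 1) := h 0 1
  have h02 : hN (sig c 0 1 2 3) (p4n t 0) (p4n t 2) = c (p4 t 0) (p4 t 2) := h 0 2
  have h12 : hN (sig c 0 1 2 3) (p4n t 1) (p4n t 2) = c (p4 t 1) (p4 t 2) := h 1 2
  have h03 : hN (sig c 0 1 2 3) (p4n t 0) (p4n t 3) = c (p4 t 0) (p4 t 3) := h 0 3
  have h13 : hN (sig c 0 1 2 3) (p4n t 1) (p4n t 3) = c (p4 t 1) (p4 t 3) := h 1 3
  have h23 : hN (sig c 0 1 2 3) (p4n t 2) (p4n t 3) = c (p4 t 2) (p4 t 3) := h 2 3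
  unfold actS
  rw [h01, h02, h12, h03, h13, h23]
  rfl

theorem actE_ext {V : Type*} {c : V → V → ℕ} (hc : Good c) (x : Fin 4 → V) (y : V) (t : Fin 24) :
    actE t (ext c (x 0) (x 1) (x 2) (x 3) y) =
      ext c (x (p4 t 0)) (x (p4 t 1)) (x (p4 t 2)) (x (p4 t 3)) y := by
  have h : ∀ i : Fin 4, dgn (ext c (x 0) (x 1) (x 2) (x 3) y) (p4n t i) = c y (x (p4 t i)) := by
    intro i
    rw [← p4_p4n]
    exact dg_ext hc x y (p4 t i)
  have h0 : dgn (ext c (x 0) (x 1) (x 2) (x 3) y) (p4n t 0) = c y (x (p4 t 0)) := h 0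
  have h1 : dgn (ext c (x 0) (x 1) (x 2) (x 3) y) (p4n t 1) = c y (x (p4 t 1)) := h 1
  have h2 : dgn (ext c (x 0) (x 1) (x 2) (x 3) y) (p4n t 2) = c y (x (p4 t 2)) := h 2
  have h3 : dgn (ext c (x 0) (x 1) (x 2) (x 3) y) (p4n t 3) = c y (x (p4 t 3)) := h 3
  unfold actE
  rw [h0, h1, h2, h3]
  rfl

theorem tri3_false {V : Type*} {c : V → V → ℕ} (hc : Good c) (u v w : V) :
    tri3 (c u v) (c v w) (c u w) = false := by
  have h1 := hc.le u v
  have h2 := hc.le v w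
  have h3 := hc.le u w
  have t1 := hc.tri u v w
  have t2 := hc.tri w v u
  rw [hc.anti u w] at t1
  rw [hc.anti v w, hc.anti u v] at t2
  generalize c u v = d at *
  generalize c v w = a at *
  generalize c u w = b at *
  interval_cases d <;> interval_cases a <;> interval_cases b <;> first | rfl | simp_all [fl]

theorem bad4_false {V : Type*} {c : V → V → ℕ} (hc : Good c) (x0 x1 x2 x3 : V) :
    bad4 (sig c x0 x1 x2 x3) = false := by
  obtain ⟨s0, s1, s2, s3, s4, s5⟩ := sig_dgn hc x0 x1 x2 x3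
  unfold bad4
  rw [s0, s1, s2, s3, s4, s5]
  simp only [tri3_false hc, cond_false]

/-- The contribution of one pair of positions. -/
theorem pair_sum {h : Fin 6 → Fin 6 → ℕ} (hh : Good h) (k : Fin 15) :
    ∑ t : Fin 24, term gT h (tS k (p4 t 0)) (tS k (p4 t 1)) (tS k (p4 t 2)) (tS k (p4 t 3))
      (tb k 4) (tb k 5) =
    (isoN (sig h (tS k 0) (tS k 1) (tS k 2) (tS k 3))
      (ext h (tS k 0) (tS k 1) (tS k 2) (tS k 3) (tb k 4))
      (ext h (tS k 0) (tS k 1) (tS k 2) (tS k 3) (tb k 5)) : ℤ) - OFF := by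
  rw [← iso_sum (sig_lt hh _ _ _ _) (bad4_false hh _ _ _ _) (ext_lt hh _ _ _ _ _)
    (ext_lt hh _ _ _ _ _), Finset.sum_range]
  refine Finset.sum_congr rfl fun t _ => ?_
  unfold term
  rw [actE_ext hh (tS k) (tb k 4) t, actE_ext hh (tS k) (tb k 5) t]
  have h1 := actS_sig (hh.comp (tS k)) t
  have h2 : sig (fun i j => h (tS k i) (tS k j)) 0 1 2 3 =
    sig h (tS k 0) (tS k 1) (tS k 2) (tS k 3) := rfl
  rw [h2] at h1
  rw [h1]
  rfl

theorem J_isoN {h : Fin 6 → Fin 6 → ℕ} (hh : Good h) :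
    J gT h = 2 * ∑ k : Fin 15, (isoN (sig h (tS k 0) (tS k 1) (tS k 2) (tS k 3))
      (ext h (tS k 0) (tS k 1) (tS k 2) (tS k 3) (tb k 4))
      (ext h (tS k 0) (tS k 1) (tS k 2) (tS k 3) (tb k 5)) : ℤ) - 30 * OFF := by
  rw [J_eval gT gT_symm, Finset.sum_congr rfl fun k _ => pair_sum hh k, Finset.sum_sub_distrib,
    Finset.sum_const, Finset.card_univ, Fintype.card_fin]
  simp only [nsmul_eq_mul]
  push_cast
  ring

end EulF
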