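import Pool.Agent.Lib.EulF.Point

/-!
# Reduction to the representatives on five vertices
-/

set_option autoImplicit false
set_option maxRecDepth 100000

namespace EulF

open Finset

/-- The code of the first five positions. -/
def R5 (h : Fin 6 → Fin 6 → ℕ) : ℕ :=
  sig h 0 1 2 3 + 729 * h 0 4 + 2187 * h 1 4 + 6561 * h 2 4 + 19683 * h 3 4

theorem R5_dgn {h : Fin 6 → Fin 6 → ℕ} (hh : Good h) :
    dgn (R5 h) 0 = h 0 1 ∧ dgn (R5 h) 1 = h 0 2 ∧ dgn (R5 h) 2 = h 1 2 ∧ dgn (R5 h) 3 = h 0 3 ∧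
    dgn (R5 h) 4 = h 1 3 ∧ dgn (R5 h) 5 = h 2 3 ∧ dgn (R5 h) 6 = h 0 4 ∧ dgn (R5 h) 7 = h 1 4 ∧
    dgn (R5 h) 8 = h 2 4 ∧ dgn (R5 h) 9 = h 3 4 := by
  have h1 := hh.le 0 1
  have h2 := hh.le 0 2
  have h3 := hh.le 1 2
  have h4 := hh.le 0 3
  have h5 := hh.le 1 3
  have h6 := hh.le 2 3
  have h7 := hh.le 0 4
  have h8 := hh.le 1 4
  have h9 := hh.le 2 4
  have h10 := hh.le 3 4
  have e : ∀ R k, dgn R k = R / 3 ^ k % 3 := fun _ _ => rfl
  simp only [e, R5, sig]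
  generalize h 0 1 = a1 at *
  generalize h 0 2 = a2 at *
  generalize h 1 2 = a3 at *
  generalize h 0 3 = a4 at *
  generalize h 1 3 = a5 at *
  generalize h 2 3 = a6 at *
  generalize h 0 4 = a7 at *
  generalize h 1 4 = a8 at *
  generalize h 2 4 = a9 at *
  generalize h 3 4 = a10 at *
  refine ⟨?_, ?_, ?_, ?_, ?_, ?_, ?_, ?_, ?_, ?_⟩ <;> norm_num <;> omega

theorem hN_R5 {h : Fin 6 → Fin 6 → ℕ} (hh : Good h) (i j : Fin 5) :
    hN (R5 h) i j = h (Fin.castSucc i) (Fin.castSucc j) := by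
  obtain ⟨s0, s1, s2, s3, s4, s5, s6, s7, s8, s9⟩ := R5_dgn hh
  have a := hh.anti
  have d := hh.diag
  fin_cases i <;> fin_cases j
  · exact (d 0).symm
  · exact s0
  · exact s1
  · exact s3
  · exact s6
  · change fl (dgn (R5 h) 0) = h 1 0
    rw [s0, a 0 1]
  · exact (d 1).symm
  · exact s2
  · exact s4
  · exact s7
  · change fl (dgn (R5 h) 1) = h 2 0
    rw [s1, a 0 2]
  · change fl (dgn (R5 h) 2) = h 2 1
    rw [s2, a 1 2]
  · exact (d 2).symm
  · exact s5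
  · exact s8
  · change fl (dgn (R5 h) 3) = h 3 0
    rw [s3, a 0 3]
  · change fl (dgn (R5 h) 4) = h 3 1
    rw [s4, a 1 3]
  · change fl (dgn (R5 h) 5) = h 3 2
    rw [s5, a 2 3]
  · exact (d 3).symm
  · exact s9
  · change fl (dgn (R5 h) 6) = h 4 0
    rw [s6, a 0 4]
  · change fl (dgn (R5 h) 7) = h 4 1
    rw [s7, a 1 4]
  · change fl (dgn (R5 h) 8) = h 4 2
    rw [s8, a 2 4]
  · change fl (dgn (R5 h) 9) = h 4 3
    rw [s9, a 3 4]
  · exact (d 4).symm

/-- The graph with the given code on five vertices contains a directed triangle. -/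
def bad5 (s : ℕ) : Bool :=
  cond (bad4 s) true
  (cond (tri3 (dgn s 0) (dgn s 7) (dgn s 6)) true
  (cond (tri3 (dgn s 1) (dgn s 8) (dgn s 6)) true
  (cond (tri3 (dgn s 3) (dgn s 9) (dgn s 6)) true
  (cond (tri3 (dgn s 2) (dgn s 8) (dgn s 7)) true
  (cond (tri3 (dgn s 4) (dgn s 9) (dgn s 7)) true
    (tri3 (dgn s 5) (dgn s 9) (dgn s 8)))))))

theorem bad5_false {h : Fin 6 → Fin 6 → ℕ} (hh : Good h) : bad5 (R5 h) = false := by
  obtain ⟨s0, s1, s2, s3, s4, s5, s6, s7, s8, s9⟩ := R5_dgn hh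
  unfold bad5 bad4
  rw [s0, s1, s2, s3, s4, s5, s6, s7, s8, s9]
  simp only [tri3_false hh, cond_false]

/-- The permutations of five positions. -/
def p5n (q i : ℕ) : ℕ :=
  Nat.mod (Nat.shiftRight P5T (Nat.add (Nat.mul 16 q) (Nat.mul 3 i))) 8

/-- Action of a permutation on codes of graphs on five vertices. -/
def actR (q s : ℕ) : ℕ :=
  Nat.add (Nat.add (Nat.add (Nat.add (Nat.add (Nat.add (Nat.add (Nat.add (Nat.add
    (hN s (p5n q 0) (p5n q 1))
    (Nat.mul 3 (hN s (p5n q 0) (p5n q 2)))) (Nat.mul 9 (hN s (p5n q 1) (p5n q 2))))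
    (Nat.mul 27 (hN s (p5n q 0) (p5n q 3)))) (Nat.mul 81 (hN s (p5n q 1) (p5n q 3))))
    (Nat.mul 243 (hN s (p5n q 2) (p5n q 3))))
    (Nat.mul 729 (hN s (p5n q 0) (p5n q 4)))) (Nat.mul 2187 (hN s (p5n q 1) (p5n q 4))))
    (Nat.mul 6561 (hN s (p5n q 2) (p5n q 4)))) (Nat.mul 19683 (hN s (p5n q 3) (p5n q 4)))

theorem chkP5 : allN 120 (fun q => allN 5 fun i => cond (Nat.ble (p5n q i) 4)
    (allN 5 fun j => cond (Nat.beq i j) true (cond (Nat.beq (p5n q i) (p5n q j)) false true))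
    false) = true := by decide +kernel

theorem chkRep : allN 729 (fun s => cond (Nat.ble 32 (ridx s)) true
    (Nat.beq s (lk16 REPS (ridx s)))) = true := by decide +kernel

theorem chkQ5 : allN 32 (fun r => allN 81 fun a =>
    cond (bad5 (Nat.add (lk16 REPS r) (Nat.mul 729 a))) true
      (cond (Nat.ble (Nat.div (lk16 Q5 (Nat.add (Nat.mul 81 r) a)) 512) 119)
        (cond (Nat.ble (Nat.mod (lk16 Q5 (Nat.add (Nat.mul 81 r) a)) 512) 316)
          (Nat.beq (actR (Nat.div (lk16 Q5 (Nat.add (Nat.mul 81 r) a)) 512)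
            (Nat.add (lk16 REPS r) (Nat.mul 729 a)))
            (Rk (Nat.mod (lk16 Q5 (Nat.add (Nat.mul 81 r) a)) 512))) false) false)) = true := by
  decide +kernel

theorem p5n_lt {q i : ℕ} (hq : q < 120) (hi : i < 5) : p5n q i < 5 := by
  have h := (cond_true (allN_spec (allN_spec chkP5 q hq) i hi)).1
  exact Nat.lt_succ_of_le (Nat.le_of_ble_eq_true h)

theorem p5n_inj {q i j : ℕ} (hq : q < 120) (hi : i < 5) (hj : j < 5) (h : p5n q i = p5n q j) :
    i = j := by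
  have h1 := allN_spec (cond_true (allN_spec (allN_spec chkP5 q hq) i hi)).2 j hj
  by_contra hne
  have h2 : Nat.beq i j = false := by
    rw [Bool.eq_false_iff]
    exact fun h => hne (Nat.eq_of_beq_eq_true h)
  have h3 : Nat.beq (p5n q i) (p5n q j) = true := by
    rw [h]
    exact Nat.beq_refl _
  rw [h2, h3] at h1
  exact absurd h1 Bool.false_ne_true

/-- The permutation `q` of the first five positions, as a function. -/
def pf (q : ℕ) (hq : q < 120) (i : Fin 6) : Fin 6 :=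
  if hi : i.val < 5 then ⟨p5n q i, by have := p5n_lt hq hi; omega⟩ else 5

theorem pf_bij (q : ℕ) (hq : q < 120) : Function.Bijective (pf q hq) := by
  apply Finite.injective_iff_bijective.1
  intro i j hij
  unfold pf at hij
  split_ifs at hij with h1 h2 h2
  · have := p5n_inj hq h1 h2 (congrArg Fin.val hij)
    exact Fin.ext this
  · have := p5n_lt hq h1
    have h3 : p5n q i = 5 := congrArg Fin.val hij
    omega
  · have := p5n_lt hq h2
    have h3 : 5 = p5n q j := congrArg Fin.val hij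
    omega
  · exact Fin.ext (by omega)

theorem actR_R5 {h : Fin 6 → Fin 6 → ℕ} (hh : Good h) (q : ℕ) (hq : q < 120) :
    actR q (R5 h) = R5 (fun i j => h (pf q hq i) (pf q hq j)) := by
  have k : ∀ i j : Fin 5, hN (R5 h) (p5n q i) (p5n q j) =
      h (pf q hq (Fin.castSucc i)) (pf q hq (Fin.castSucc j)) := by
    intro i j
    have h1 := hN_R5 hh ⟨p5n q i, p5n_lt hq i.isLt⟩ ⟨p5n q j, p5n_lt hq j.isLt⟩
    have e : ∀ i : Fin 5, pf q hq (Fin.castSucc i) = Fin.castSucc ⟨p5n q i, p5n_lt hq i.isLt⟩ := by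
      intro i
      unfold pf
      rw [dif_pos (show (Fin.castSucc i).val < 5 from i.isLt)]
      rfl
    rw [e, e]
    exact h1
  have k01 : hN (R5 h) (p5n q 0) (p5n q 1) = h (pf q hq 0) (pf q hq 1) := k 0 1
  have k02 : hN (R5 h) (p5n q 0) (p5n q 2) = h (pf q hq 0) (pf q hq 2) := k 0 2
  have k12 : hN (R5 h) (p5n q 1) (p5n q 2) = h (pf q hq 1) (pf q hq 2) := k 1 2
  have k03 : hN (R5 h) (p5n q 0) (p5n q 3) = h (pf q hq 0) (pf q hq 3) := k 0 3
  have k13 : hN (R5 h) (p5n q 1) (p5n q 3) = h (pf q hq 1) (pf q hq 3) := k 1 3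
  have k23 : hN (R5 h) (p5n q 2) (p5n q 3) = h (pf q hq 2) (pf q hq 3) := k 2 3
  have k04 : hN (R5 h) (p5n q 0) (p5n q 4) = h (pf q hq 0) (pf q hq 4) := k 0 4
  have k14 : hN (R5 h) (p5n q 1) (p5n q 4) = h (pf q hq 1) (pf q hq 4) := k 1 4
  have k24 : hN (R5 h) (p5n q 2) (p5n q 4) = h (pf q hq 2) (pf q hq 4) := k 2 4
  have k34 : hN (R5 h) (p5n q 3) (p5n q 4) = h (pf q hq 3) (pf q hq 4) := k 3 4
  unfold actR
  rw [k01, k02, k12, k03, k13, k23, k04, k14, k24, k34]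
  rfl

theorem wv_comp (h : Fin 6 → Fin 6 → ℕ) (f : Equiv.Perm (Fin 6)) (i : Fin 6) :
    wv (fun i j => h (f i) (f j)) i = wv h (f i) := by
  unfold wv
  exact Fintype.sum_equiv f _ _ fun j => rfl

/-- Every pattern can be rearranged to a pattern whose last vertex has minimal weight and whose first
five positions carry a representative. -/
theorem reduction {h : Fin 6 → Fin 6 → ℕ} (hh : Good h) : ∃ f : Equiv.Perm (Fin 6),
    (∀ i, wv (fun i j => h (f i) (f j)) 5 ≤ wv (fun i j => h (f i) (f j)) i) ∧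
    ∃ k < 317, R5 (fun i j => h (f i) (f j)) = Rk k := by
  obtain ⟨v, hv⟩ := Finite.exists_min (wv h)
  -- first step
  obtain ⟨f1, hf1⟩ : ∃ f1 : Equiv.Perm (Fin 6), f1 5 = v := ⟨Equiv.swap v 5, Equiv.swap_apply_right _ _⟩
  have g1 : Good (fun i j => h (f1 i) (f1 j)) := hh.comp f1
  -- second step
  have hs := sig_lt g1 0 1 2 3
  have hb := bad4_false g1 0 1 2 3
  have hok := allN_spec chkIso _ hs
  rw [hb] at hok
  have hok' : okI (sig (fun i j => h (f1 i) (f1 j)) 0 1 2 3) = true := hok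
  simp only [okI, Bool.and_eq_true, decide_eq_true_eq, List.all_eq_true] at hok'
  obtain ⟨⟨⟨hlen, -⟩, hlt⟩, hall⟩ := hok'
  obtain ⟨t, ht⟩ : ∃ t, t ∈ isoL (sig (fun i j => h (f1 i) (f1 j)) 0 1 2 3) := by
    apply List.exists_mem_of_length_pos
    by_contra hz
    have : (isoL (sig (fun i j => h (f1 i) (f1 j)) 0 1 2 3)).length = 0 := by omega
    rw [this, zero_mul] at hlen
    exact absurd hlen (by decide)
  have ht' := hlt t ht
  have h2 := hall t (List.mem_range.2 ht')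
  rw [if_pos ht] at h2
  have h3 := of_decide_eq_true h2
  have hr : iso (sig (fun i j => h (f1 i) (f1 j)) 0 1 2 3) % 32 < 32 := Nat.mod_lt _ (by norm_num)
  rw [← h3] at hr
  have hact : actS t (sig (fun i j => h (f1 i) (f1 j)) 0 1 2 3) < 729 := by
    have d : ∀ i j, hN (sig (fun i j => h (f1 i) (f1 j)) 0 1 2 3) i j ≤ 2 := by
      intro i j
      unfold hN
      cases Nat.ble (Nat.succ i) j
      · cases Nat.ble (Nat.succ j) i
        · exact Nat.zero_le _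
        · exact Nat.le_of_lt_succ (Nat.mod_lt _ (by norm_num))
      · exact Nat.le_of_lt_succ (dgn_lt _ _)
    have e : ∀ s, actS t s = hN s (p4n t 0) (p4n t 1) + 3 * hN s (p4n t 0) (p4n t 2) +
      9 * hN s (p4n t 1) (p4n t 2) + 27 * hN s (p4n t 0) (p4n t 3) +
      81 * hN s (p4n t 1) (p4n t 3) + 243 * hN s (p4n t 2) (p4n t 3) := fun _ => rfl
    rw [e]
    have d1 := d (p4n t 0) (p4n t 1)
    have d2 := d (p4n t 0) (p4n t 2)
    have d3 := d (p4n t 1) (p4n t 2)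
    have d4 := d (p4n t 0) (p4n t 3)
    have d5 := d (p4n t 1) (p4n t 3)
    have d6 := d (p4n t 2) (p4n t 3)
    omega
  have hrep := allN_spec chkRep _ hact
  have hb2 : Nat.ble 32 (ridx (actS t (sig (fun i j => h (f1 i) (f1 j)) 0 1 2 3))) = false := by
    rw [Bool.eq_false_iff]
    exact fun h => absurd (Nat.le_of_ble_eq_true h) (not_le.2 hr)
  rw [hb2, cond_false] at hrep
  have hrep' := Nat.eq_of_beq_eq_true hrep
  obtain ⟨f2, hf2⟩ : ∃ f2 : Equiv.Perm (Fin 6), f2 = kp (pp ⟨t, ht'⟩) := ⟨_, rfl⟩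
  have hf25 : f2 5 = 5 := by rw [hf2, kp_five]
  have g2 : Good (fun i j => h (f1 (f2 i)) (f1 (f2 j))) := g1.comp f2
  have hsig2 : sig (fun i j => h (f1 (f2 i)) (f1 (f2 j))) 0 1 2 3 =
      actS t (sig (fun i j => h (f1 i) (f1 j)) 0 1 2 3) := by
    have a1 := actS_sig (g1.comp (Fin.castAdd 2 : Fin 4 → Fin 6)) ⟨t, ht'⟩
    have a2 : sig (fun i j : Fin 4 => h (f1 (Fin.castAdd 2 i)) (f1 (Fin.castAdd 2 j))) 0 1 2 3 =
      sig (fun i j => h (f1 i) (f1 j)) 0 1 2 3 := rfl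
    rw [a2] at a1
    rw [a1]
    have a3 : ∀ i : Fin 4, f2 (Fin.castAdd 2 i) = Fin.castAdd 2 (p4 ⟨t, ht'⟩ i) := by
      intro i
      rw [hf2, kp_lt]
      rfl
    have b0 : f2 0 = Fin.castAdd 2 (p4 ⟨t, ht'⟩ 0) := a3 0
    have b1 : f2 1 = Fin.castAdd 2 (p4 ⟨t, ht'⟩ 1) := a3 1
    have b2 : f2 2 = Fin.castAdd 2 (p4 ⟨t, ht'⟩ 2) := a3 2
    have b3 : f2 3 = Fin.castAdd 2 (p4 ⟨t, ht'⟩ 3) := a3 3
    unfold sig
    simp only [b0, b1, b2, b3]
  -- third step
  obtain ⟨r, hrdef⟩ : ∃ r, r = ridx (actS t (sig (fun i j => h (f1 i) (f1 j)) 0 1 2 3)) := ⟨_, rfl⟩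
  rw [← hrdef] at hr hrep'
  obtain ⟨a, hadef⟩ : ∃ a, a = (fun i j => h (f1 (f2 i)) (f1 (f2 j))) 0 4 +
    3 * (fun i j => h (f1 (f2 i)) (f1 (f2 j))) 1 4 + 9 * (fun i j => h (f1 (f2 i)) (f1 (f2 j))) 2 4 +
    27 * (fun i j => h (f1 (f2 i)) (f1 (f2 j))) 3 4 := ⟨_, rfl⟩
  have ha : a < 81 := by
    have d1 := g2.le 0 4
    have d2 := g2.le 1 4
    have d3 := g2.le 2 4
    have d4 := g2.le 3 4
    simp only at hadef d1 d2 d3 d4
    omega
  have hR5 : R5 (fun i j => h (f1 (f2 i)) (f1 (f2 j))) = Nat.add (lk16 REPS r) (Nat.mul 729 a) := by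
    change _ = lk16 REPS r + 729 * a
    unfold R5
    rw [hsig2, hrep', hadef]
    ring
  have hq := allN_spec (allN_spec chkQ5 r hr) a ha
  rw [← hR5, bad5_false g2, cond_false] at hq
  obtain ⟨q1, hq⟩ := cond_true hq
  obtain ⟨q2, q3⟩ := cond_true hq
  have q1' := Nat.le_of_ble_eq_true q1
  have q2' := Nat.le_of_ble_eq_true q2
  have q3' := Nat.eq_of_beq_eq_true q3
  obtain ⟨q, hqd⟩ : ∃ q, q = Nat.div (lk16 Q5 (Nat.add (Nat.mul 81 r) a)) 512 := ⟨_, rfl⟩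
  rw [← hqd] at q1' q3'
  have hq120 : q < 120 := by omega
  rw [actR_R5 g2 q hq120] at q3'
  have e3 : ∀ i, (Equiv.ofBijective (pf q hq120) (pf_bij q hq120)) i = pf q hq120 i := fun _ => rfl
  refine ⟨f1 * f2 * Equiv.ofBijective (pf q hq120) (pf_bij q hq120), ?_, _, by omega, q3'⟩
  intro i
  rw [wv_comp, wv_comp]
  have e5 : (f1 * f2 * Equiv.ofBijective (pf q hq120) (pf_bij q hq120)) 5 = v := by
    rw [Equiv.Perm.mul_apply, Equiv.Perm.mul_apply, e3]
    have : pf q hq120 5 = 5 := by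
      unfold pf
      rw [dif_neg (by decide)]
    rw [this, hf25, hf1]
  rw [e5]
  exact hv _

end EulF
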