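import Pool.Agent.Lib.EulF.Chk0
import Pool.Agent.Lib.EulF.Chk1
import Pool.Agent.Lib.EulF.Chk2
import Pool.Agent.Lib.EulF.Chk3
import Pool.Agent.Lib.EulF.Red

/-!
# The number of arcs of an Eulerian oriented graph without directed triangles
-/

set_option autoImplicit false
set_option maxRecDepth 100000

namespace EulF

open Finset

theorem chkRange_spec {k n : ℕ} (h : chkRange k n = true) : ∀ i < n, chkR (Rk (k + i)) = true := by
  induction n with
  | zero => intro i hi; omega
  | succ n ih =>
    have h' : cond (chkR (Rk (Nat.add k n))) (chkRange k n) false = true := h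
    obtain ⟨h1, h2⟩ := cond_true h'
    intro i hi
    rcases Nat.lt_succ_iff_lt_or_eq.1 hi with h3 | h3
    · exact ih h2 i h3
    · rw [h3]; exact h1

theorem all_chk {k : ℕ} (hk : k < 317) : chkR (Rk k) = true := by
  have h : ∀ a n : ℕ, chkRange a n = true → a ≤ k → k < a + n → chkR (Rk k) = true := by
    intro a n h1 h2 h3
    have := chkRange_spec h1 (k - a) (by omega)
    rwa [Nat.add_sub_cancel' h2] at this
  by_cases h0 : k < 40
  · exact h 0 40 chunk0 (by omega) (by omega)
  by_cases h1 : k < 80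
  · exact h 40 40 chunk1 (by omega) (by omega)
  by_cases h2 : k < 120
  · exact h 80 40 chunk2 (by omega) (by omega)
  by_cases h3 : k < 160
  · exact h 120 40 chunk3 (by omega) (by omega)
  by_cases h4 : k < 200
  · exact h 160 40 chunk4 (by omega) (by omega)
  by_cases h5 : k < 240
  · exact h 200 40 chunk5 (by omega) (by omega)
  by_cases h6 : k < 280
  · exact h 240 40 chunk6 (by omega) (by omega)
  · exact h 280 37 chunk7 (by omega) (by omega)

theorem pointwise (h : Fin 6 → Fin 6 → ℕ) (hh : Good h) : J gT h + 2 * DD * arcs h ≤ 2 * CC := by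
  obtain ⟨f, hf, k, hk, hR⟩ := reduction hh
  have g : Good (fun i j => h (f i) (f j)) := hh.comp f
  have h1 := all_chk hk
  rw [← hR] at h1
  unfold chkR at h1
  obtain ⟨s0, s1, s2, s3, s4, s5, s6, s7, s8, s9⟩ := R5_dgn g
  rw [s0, s1, s2, s3, s4, s5, s6, s7, s8, s9] at h1
  have h2 := point g hf h1
  rwa [J_perm, arcs_perm] at h2

/-- An Eulerian oriented graph without directed triangles has at most `0.3399 n ^ 2` arcs. -/
theorem bound {V : Type*} [Fintype V] {c : V → V → ℕ} (hc : Good c)
    (hE : ∀ u, ∑ y, sgn (c y u) = 0) :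
    10000 * (∑ u, ∑ v, if c u v = 1 then (1 : ℤ) else 0) ≤ 3399 * (Fintype.card V : ℤ) ^ 2 := by
  have h := arcs_bound hc hE gT (fun x => gT_cert hc _ _ _ _) CC DD pointwise
  rcases Nat.eq_zero_or_pos (Fintype.card V) with h0 | h0
  · have : IsEmpty V := Fintype.card_eq_zero_iff.1 h0
    simp
  · have hn : (0 : ℤ) < (Fintype.card V : ℤ) ^ 4 := by positivity
    set n : ℤ := (Fintype.card V : ℤ)
    set A : ℤ := ∑ u, ∑ v, if c u v = 1 then (1 : ℤ) else 0
    have e1 : CC = 1026463629 := rfl
    have e2 : DD = 100663296 := rfl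
    rw [e1, e2] at h
    have h2 : n ^ 4 * (30 * 100663296 * A) ≤ n ^ 4 * (1026463629 * n ^ 2) := by
      calc n ^ 4 * (30 * 100663296 * A) = 30 * 100663296 * (n ^ 4 * A) := by ring
        _ ≤ 1026463629 * n ^ 6 := h
        _ = n ^ 4 * (1026463629 * n ^ 2) := by ring
    have h3 := le_of_mul_le_mul_left h2 hn
    have h4 : 0 ≤ n ^ 2 := sq_nonneg n
    nlinarith

end EulF
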