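import Pool.Agent.Lib.EulF.Tab
import Pool.Agent.Lib.EulF.Core

/-!
# Functions evaluated by the kernel
-/

set_option autoImplicit false

namespace EulF

/-- The `i`-th block of 48 bits. -/
def lk48 (T i : ℕ) : ℕ := Nat.mod (Nat.shiftRight T (Nat.mul 48 i)) 281474976710656

/-- The `i`-th block of 16 bits. -/
def lk16 (T i : ℕ) : ℕ := Nat.mod (Nat.shiftRight T (Nat.mul 16 i)) 65536

/-- The `i`-th block of 8 bits. -/
def lk8 (T i : ℕ) : ℕ := Nat.mod (Nat.shiftRight T (Nat.mul 8 i)) 256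

/-- The tables of type `r`. -/
def pk {α : Type} (r : ℕ) (k : ℕ → ℕ → ℕ → α) : α :=
  (cond (Nat.ble r 15) (cond (Nat.ble r 7) (cond (Nat.ble r 3) (cond (Nat.ble r 1) (cond (Nat.ble r 0) (k IT0 81 T0) (k IT1 72 T1)) (cond (Nat.ble r 2) (k IT2 66 T2) (k IT3 63 T3))) (cond (Nat.ble r 5) (cond (Nat.ble r 4) (k IT4 66 T4) (k IT5 60 T5)) (cond (Nat.ble r 6) (k IT6 62 T6) (k IT7 57 T7)))) (cond (Nat.ble r 11) (cond (Nat.ble r 9) (cond (Nat.ble r 8) (k IT8 57 T8) (k IT9 64 T9)) (cond (Nat.ble r 10) (k IT10 58 T10) (k IT11 60 T11))) (cond (Nat.ble r 13) (cond (Nat.ble r 12) (k IT12 56 T12) (k IT13 54 T13)) (cond (Nat.ble r 14) (k IT14 55 T14) (k IT15 52 T15))))) (cond (Nat.ble r 23) (cond (Nat.ble r 19) (cond (Nat.ble r 17) (cond (Nat.ble r 16) (k IT16 62 T16) (k IT17 58 T17)) (cond (Nat.ble r 18) (k IT18 52 T18) (k IT19 54 T19))) (cond (Nat.ble r 21) (cond (Nat.ble r 20) (k IT20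 56 T20) (k IT21 56 T21)) (cond (Nat.ble r 22) (k IT22 52 T22) (k IT23 52 T23)))) (cond (Nat.ble r 27) (cond (Nat.ble r 25) (cond (Nat.ble r 24) (k IT24 50 T24) (k IT25 53 T25)) (cond (Nat.ble r 26) (k IT26 49 T26) (k IT27 52 T27))) (cond (Nat.ble r 29) (cond (Nat.ble r 28) (k IT28 47 T28) (k IT29 50 T29)) (cond (Nat.ble r 30) (k IT30 52 T30) (k IT31 48 T31))))))

/-- The offset of type `r`. -/
def off (r : ℕ) : ℕ :=
  (cond (Nat.ble r 15) (cond (Nat.ble r 7) (cond (Nat.ble r 3) (cond (Nat.ble r 1) (cond (Nat.ble r 0) 1099511627776 13194139533312) (cond (Nat.ble r 2) 13194139533312 26388279066624)) (cond (Nat.ble r 5) (cond (Nat.ble r 4) 13194139533312 26388279066624) (cond (Nat.ble r 6) 4398046511104 13194139533312))) (cond (Nat.ble r 11) (cond (Nat.ble r 9) (cond (Nat.ble r 8) 13194139533312 13194139533312) (cond (Nat.ble r 10) 26388279066624 26388279066624)) (cond (Nat.ble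 r 13) (cond (Nat.ble r 12) 26388279066624 26388279066624) (cond (Nat.ble r 14) 26388279066624 26388279066624)))) (cond (Nat.ble r 23) (cond (Nat.ble r 19) (cond (Nat.ble r 17) (cond (Nat.ble r 16) 4398046511104 26388279066624) (cond (Nat.ble r 18) 26388279066624 26388279066624)) (cond (Nat.ble r 21) (cond (Nat.ble r 20) 26388279066624 6597069766656) (cond (Nat.ble r 22) 13194139533312 26388279066624))) (cond (Nat.ble r 27) (cond (Nat.ble r 25) (cond (Nat.ble r 24) 26388279066624 13194139533312) (cond (Nat.ble r 26) 26388279066624 13194139533312)) (cond (Nat.ble r 29) (cond (Nat.ble r 28) 6597069766656 26388279066624) (cond (Nat.ble r 30) 13194139533312 26388279066624)))))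

/-- The flags of type `r`. -/
def FLf (r : ℕ) : ℕ :=
  (cond (Nat.ble r 15) (cond (Nat.ble r 7) (cond (Nat.ble r 3) (cond (Nat.ble r 1) (cond (Nat.ble r 0) FL0 FL1) (cond (Nat.ble r 2) FL2 FL3)) (cond (Nat.ble r 5) (cond (Nat.ble r 4) FL4 FL5) (cond (Nat.ble r 6) FL6 FL7))) (cond (Nat.ble r 11) (cond (Nat.ble r 9) (cond (Nat.ble r 8) FL8 FL9) (cond (Nat.ble r 10) FL10 FL11)) (cond (Nat.ble r 13) (cond (Nat.ble r 12) FL12 FL13) (cond (Nat.ble r 14) FL14 FL15)))) (cond (Nat.ble r 23) (cond (Nat.ble r 19) (cond (Nat.ble r 17) (cond (Nat.ble r 16) FL16 FL17) (cond (Nat.ble r 18) FL18 FL19)) (cond (Nat.ble r 21) (cond (Nat.ble r 20) FL20 FL21) (cond (Nat.ble r 22) FL22 FL23))) (cond (Nat.ble r 27) (cond (Nat.ble r 25) (cond (Nat.ble r 24) FL24 FL25) (cond (Nat.ble r 26) FL26 FL27)) (cond (Nat.ble r 29) (cond (Nat.ble r 28) FL28 FL29) (cond (Nat.ble r 30) FL30 FL31)))))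

/-- Table entry of type `r` after the permutation `t`. -/
def tl (IT n T a b t : ℕ) : ℕ :=
  lk48 T (Nat.add (Nat.mul (lk8 IT (Nat.add (Nat.mul 81 t) a)) n) (lk8 IT (Nat.add (Nat.mul 81 t) b)))

/-- Sum of table entries over a list of permutations coded by a number. -/
noncomputable def loop (IT n T a b : ℕ) (f : ℕ) : ℕ → ℕ :=
  Nat.rec (motive := fun _ => ℕ → ℕ) (fun _ => 0)
    (fun _ ih c => cond (Nat.ble c 1) 0
      (Nat.add (tl IT n T a b (Nat.mod c 32)) (ih (Nat.div c 32)))) f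

/-- The entry of a code in the table of type lists. -/
def iso (s : ℕ) : ℕ := Nat.mod (Nat.shiftRight ISO (Nat.mul 136 s)) 87112285931760246646623899502532662132736

/-- Sum of the table entries over all identifications of a labelled graph with its type. -/
noncomputable def isoN (s a b : ℕ) : ℕ :=
  pk (Nat.mod (iso s) 32) fun IT n T => loop IT n T a b 24 (Nat.div (iso s) 32)

/-- Three cases. -/
def all3 (f : ℕ → Bool) : Bool := cond (f 0) (cond (f 1) (f 2) false) false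

/-- Directed triangle through the last vertex. -/
def bad (d e e' : ℕ) : Bool :=
  Nat.beq (Nat.mod (Nat.shiftRight 8454144 (Nat.add (Nat.add (Nat.mul 9 d) (Nat.mul 3 e)) e')) 2) 1

/-- Weight of a pair code. -/
def wt (d : ℕ) : ℕ := Nat.mod (Nat.shiftRight 2704 (Nat.mul 4 d)) 16

/-- Absolute value of a pair code. -/
def nz (d : ℕ) : ℕ := Nat.div (Nat.add d 1) 2

/-- The total of the fifteen sums. -/
noncomputable def val (d01 d02 d12 d03 d13 d23 d04 d14 d24 d34 e0 e1 e2 e3 e4 : ℕ) : ℕ :=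
  (Nat.add (isoN (Nat.add (Nat.add (Nat.add (Nat.add (Nat.add d23 (Nat.mul 3 d24)) (Nat.mul 9 d34)) (Nat.mul 27 e2)) (Nat.mul 81 e3)) (Nat.mul 243 e4)) (Nat.add (Nat.add (Nat.add d02 (Nat.mul 3 d03)) (Nat.mul 9 d04)) (Nat.mul 27 e0)) (Nat.add (Nat.add (Nat.add d12 (Nat.mul 3 d13)) (Nat.mul 9 d14)) (Nat.mul 27 e1)))
    (Nat.add (isoN (Nat.add (Nat.add (Nat.add (Nat.add (Nat.add d13 (Nat.mul 3 d14)) (Nat.mul 9 d34)) (Nat.mul 27 e1)) (Nat.mul 81 e3)) (Nat.mul 243 e4)) (Nat.add (Nat.add (Nat.add d01 (Nat.mul 3 d03)) (Nat.mul 9 d04)) (Nat.mul 27 e0)) (Nat.add (Nat.add (Nat.add (fl d12) (Nat.mul 3 d23)) (Nat.mul 9 d24)) (Nat.mul 27 e2)))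
    (Nat.add (isoN (Nat.add (Nat.add (Nat.add (Nat.add (Nat.add d12 (Nat.mul 3 d14)) (Nat.mul 9 d24)) (Nat.mul 27 e1)) (Nat.mul 81 e2)) (Nat.mul 243 e4)) (Nat.add (Nat.add (Nat.add d01 (Nat.mul 3 d02)) (Nat.mul 9 d04)) (Nat.mul 27 e0)) (Nat.add (Nat.add (Nat.add (fl d13) (Nat.mul 3 (fl d23))) (Nat.mul 9 d34)) (Nat.mul 27 e3)))
    (Nat.add (isoN (Nat.add (Nat.add (Nat.add (Nat.add (Nat.add d12 (Nat.mul 3 d13)) (Nat.mul 9 d23)) (Nat.mul 27 e1)) (Nat.mul 81 e2)) (Nat.mul 243 e3)) (Nat.add (Nat.add (Nat.add d01 (Nat.mul 3 d02)) (Nat.mul 9 d03)) (Nat.mul 27 e0)) (Nat.add (Nat.add (Nat.add (fl d14) (Nat.mul 3 (fl d24))) (Nat.mul 9 (fl d34))) (Nat.mul 27 e4)))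
    (Nat.add (isoN (Nat.add (Nat.add (Nat.add (Nat.add (Nat.add d12 (Nat.mul 3 d13)) (Nat.mul 9 d23)) (Nat.mul 27 d14)) (Nat.mul 81 d24)) (Nat.mul 243 d34)) (Nat.add (Nat.add (Nat.add d01 (Nat.mul 3 d02)) (Nat.mul 9 d03)) (Nat.mul 27 d04)) (Nat.add (Nat.add (Nat.add (fl e1) (Nat.mul 3 (fl e2))) (Nat.mul 9 (fl e3))) (Nat.mul 27 (fl e4))))
    (Nat.add (isoN (Nat.add (Nat.add (Nat.add (Nat.add (Nat.add d03 (Nat.mul 3 d04)) (Nat.mul 9 d34)) (Nat.mul 27 e0)) (Nat.mul 81 e3)) (Nat.mul 243 e4)) (Nat.add (Nat.add (Nat.add (fl d01) (Nat.mul 3 d13)) (Nat.mul 9 d14)) (Nat.mul 27 e1)) (Nat.add (Nat.add (Nat.add (fl d02) (Nat.mul 3 d23)) (Nat.mul 9 d24)) (Nat.mul 27 e2)))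
    (Nat.add (isoN (Nat.add (Nat.add (Nat.add (Nat.add (Nat.add d02 (Nat.mul 3 d04)) (Nat.mul 9 d24)) (Nat.mul 27 e0)) (Nat.mul 81 e2)) (Nat.mul 243 e4)) (Nat.add (Nat.add (Nat.add (fl d01) (Nat.mul 3 d12)) (Nat.mul 9 d14)) (Nat.mul 27 e1)) (Nat.add (Nat.add (Nat.add (fl d03) (Nat.mul 3 (fl d23))) (Nat.mul 9 d34)) (Nat.mul 27 e3)))
    (Nat.add (isoN (Nat.add (Nat.add (Nat.add (Nat.add (Nat.add d02 (Nat.mul 3 d03)) (Nat.mul 9 d23)) (Nat.mul 27 e0)) (Nat.mul 81 e2)) (Nat.mul 243 e3)) (Nat.add (Nat.add (Nat.add (fl d01) (Nat.mul 3 d12)) (Nat.mul 9 d13)) (Nat.mul 27 e1)) (Nat.add (Nat.add (Nat.add (fl d04) (Nat.mul 3 (fl d24))) (Nat.mul 9 (fl d34))) (Nat.mul 27 e4)))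
    (Nat.add (isoN (Nat.add (Nat.add (Nat.add (Nat.add (Nat.add d02 (Nat.mul 3 d03)) (Nat.mul 9 d23)) (Nat.mul 27 d04)) (Nat.mul 81 d24)) (Nat.mul 243 d34)) (Nat.add (Nat.add (Nat.add (fl d01) (Nat.mul 3 d12)) (Nat.mul 9 d13)) (Nat.mul 27 d14)) (Nat.add (Nat.add (Nat.add (fl e0) (Nat.mul 3 (fl e2))) (Nat.mul 9 (fl e3))) (Nat.mul 27 (fl e4))))
    (Nat.add (isoN (Nat.add (Nat.add (Nat.add (Nat.add (Nat.add d01 (Nat.mul 3 d04)) (Nat.mul 9 d14)) (Nat.mul 27 e0)) (Nat.mul 81 e1)) (Nat.mul 243 e4)) (Nat.add (Nat.add (Nat.add (fl d02) (Nat.mul 3 (fl d12))) (Nat.mul 9 d24)) (Nat.mul 27 e2)) (Nat.add (Nat.add (Nat.add (fl d03) (Nat.mul 3 (fl d13))) (Nat.mul 9 d34)) (Nat.mul 27 e3)))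
    (Nat.add (isoN (Nat.add (Nat.add (Nat.add (Nat.add (Nat.add d01 (Nat.mul 3 d03)) (Nat.mul 9 d13)) (Nat.mul 27 e0)) (Nat.mul 81 e1)) (Nat.mul 243 e3)) (Nat.add (Nat.add (Nat.add (fl d02) (Nat.mul 3 (fl d12))) (Nat.mul 9 d23)) (Nat.mul 27 e2)) (Nat.add (Nat.add (Nat.add (fl d04) (Nat.mul 3 (fl d14))) (Nat.mul 9 (fl d34))) (Nat.mul 27 e4)))
    (Nat.add (isoN (Nat.add (Nat.add (Nat.add (Nat.add (Nat.add d01 (Nat.mul 3 d03)) (Nat.mul 9 d13)) (Nat.mul 27 d04)) (Nat.mul 81 d14)) (Nat.mul 243 d34)) (Nat.add (Nat.add (Nat.add (fl d02) (Nat.mul 3 (fl d12))) (Nat.mul 9 d23)) (Nat.mul 27 d24)) (Nat.add (Nat.add (Nat.add (fl e0) (Nat.mul 3 (fl e1))) (Nat.mul 9 (fl e3))) (Nat.mul 27 (fl e4))))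
    (Nat.add (isoN (Nat.add (Nat.add (Nat.add (Nat.add (Nat.add d01 (Nat.mul 3 d02)) (Nat.mul 9 d12)) (Nat.mul 27 e0)) (Nat.mul 81 e1)) (Nat.mul 243 e2)) (Nat.add (Nat.add (Nat.add (fl d03) (Nat.mul 3 (fl d13))) (Nat.mul 9 (fl d23))) (Nat.mul 27 e3)) (Nat.add (Nat.add (Nat.add (fl d04) (Nat.mul 3 (fl d14))) (Nat.mul 9 (fl d24))) (Nat.mul 27 e4)))
    (Nat.add (isoN (Nat.add (Nat.add (Nat.add (Nat.add (Nat.add d01 (Nat.mul 3 d02)) (Nat.mul 9 d12)) (Nat.mul 27 d04)) (Nat.mul 81 d14)) (Nat.mul 243 d24)) (Nat.add (Nat.add (Nat.add (fl d03) (Nat.mul 3 (fl d13))) (Nat.mul 9 (fl d23))) (Nat.mul 27 d34)) (Nat.add (Nat.add (Nat.add (fl e0) (Nat.mul 3 (fl e1))) (Nat.mul 9 (fl e2))) (Nat.mul 27 (fl e4))))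
    (isoN (Nat.add (Nat.add (Nat.add (Nat.add (Nat.add d01 (Nat.mul 3 d02)) (Nat.mul 9 d12)) (Nat.mul 27 d03)) (Nat.mul 81 d13)) (Nat.mul 243 d23)) (Nat.add (Nat.add (Nat.add (fl d04) (Nat.mul 3 (fl d14))) (Nat.mul 9 (fl d24))) (Nat.mul 27 (fl d34))) (Nat.add (Nat.add (Nat.add (fl e0) (Nat.mul 3 (fl e1))) (Nat.mul 9 (fl e2))) (Nat.mul 27 (fl e3))))))))))))))))))

/-- The number of arcs. -/
def arcN (d01 d02 d12 d03 d13 d23 d04 d14 d24 d34 e0 e1 e2 e3 e4 : ℕ) : ℕ :=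
  (Nat.add (Nat.add (Nat.add (Nat.add (Nat.add (Nat.add (Nat.add (Nat.add (Nat.add (Nat.add (nz d01) (nz d02)) (nz d12)) (nz d03)) (nz d13)) (nz d23)) (nz d04)) (nz d14)) (nz d24)) (nz d34))
    (Nat.add (Nat.add (Nat.add (Nat.add (nz e0) (nz e1)) (nz e2)) (nz e3)) (nz e4)))

/-- The last vertex has minimal weight. -/
def mino (d01 d02 d12 d03 d13 d23 d04 d14 d24 d34 e0 e1 e2 e3 e4 : ℕ) : Bool :=
  (cond (Nat.ble (Nat.add (Nat.add (Nat.add (Nat.add (wt (fl e0)) (wt (fl e1))) (wt (fl e2))) (wt (fl e3))) (wt (fl e4))) (Nat.add (Nat.add (Nat.add (Nat.add (wt d01) (wt d02)) (wt d03)) (wt d04)) (wt e0))) (cond (Nat.ble (Nat.add (Nat.add (Nat.add (Nat.add (wt (fl e0)) (wt (fl e1))) (wt (fl e2))) (wt (fl e3))) (wt (fl e4))) (Nat.add (Nat.add (Nat.add (Nat.add (wt (fl d01)) (wt d12)) (wt d13)) (wt d14)) (wt e1))) (cond (Nat.ble (Nat.add (Nat.add (Nat.add (Nat.add (wt (fl e0)) (wt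 (fl e1))) (wt (fl e2))) (wt (fl e3))) (wt (fl e4))) (Nat.add (Nat.add (Nat.add (Nat.add (wt (fl d02)) (wt (fl d12))) (wt d23)) (wt d24)) (wt e2))) (cond (Nat.ble (Nat.add (Nat.add (Nat.add (Nat.add (wt (fl e0)) (wt (fl e1))) (wt (fl e2))) (wt (fl e3))) (wt (fl e4))) (Nat.add (Nat.add (Nat.add (Nat.add (wt (fl d03)) (wt (fl d13))) (wt (fl d23))) (wt d34)) (wt e3))) (cond (Nat.ble (Nat.add (Nat.add (Nat.add (Nat.add (wt (fl e0)) (wt (fl e1))) (wt (fl e2))) (wt (fl e3))) (wt (fl e4))) (Nat.add (Nat.add (Nat.add (Nat.add (wt (fl d04)) (wt (fl d14))) (wt (fl d24))) (wt (fl d34))) (wt e4))) true false) false) false) false) false)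

/-- The final inequality. -/
noncomputable def fin (d01 d02 d12 d03 d13 d23 d04 d14 d24 d34 e0 e1 e2 e3 e4 : ℕ) : Bool :=
  cond (mino d01 d02 d12 d03 d13 d23 d04 d14 d24 d34 e0 e1 e2 e3 e4)
    (Nat.ble (Nat.add (val d01 d02 d12 d03 d13 d23 d04 d14 d24 d34 e0 e1 e2 e3 e4) (Nat.mul 100663296 (arcN d01 d02 d12 d03 d13 d23 d04 d14 d24 d34 e0 e1 e2 e3 e4))) 395825212462989) true

/-- All extensions of a graph on five vertices. -/
noncomputable def chk (d01 d02 d12 d03 d13 d23 d04 d14 d24 d34 : ℕ) : Bool :=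
  all3 fun e0 => (all3 fun e1 => (cond (bad d01 e0 e1) true (all3 fun e2 => (cond (bad d02 e0 e2) true (cond (bad d12 e1 e2) true (all3 fun e3 => (cond (bad d03 e0 e3) true (cond (bad d13 e1 e3) true (cond (bad d23 e2 e3) true (all3 fun e4 => (cond (bad d04 e0 e4) true (cond (bad d14 e1 e4) true (cond (bad d24 e2 e4) true (cond (bad d34 e3 e4) true (fin d01 d02 d12 d03 d13 d23 d04 d14 d24 d34 e0 e1 e2 e3 e4)))))))))))))))

/-- Base three digit. -/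
def dgn (R k : ℕ) : ℕ := Nat.mod (Nat.div R (Nat.pow 3 k)) 3

/-- The `k`-th representative. -/
def Rk (k : ℕ) : ℕ := lk16 RL k

/-- The check of the `k`-th representative. -/
noncomputable def chkR (R : ℕ) : Bool :=
  chk (dgn R 0) (dgn R 1) (dgn R 2) (dgn R 3) (dgn R 4) (dgn R 5) (dgn R 6) (dgn R 7) (dgn R 8) (dgn R 9)

/-- The checks of `n` representatives from the `k`-th on. -/
noncomputable def chkRange (k n : ℕ) : Bool :=
  Nat.rec (motive := fun _ => Bool) true (fun i ih => cond (chkR (Rk (Nat.add k i))) ih false) n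

end EulF
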