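import Pool.Agent.Lib.EulF.Defs2

/-!
# Packed vectors and the verification of a Gram matrix
-/

set_option autoImplicit false

namespace EulF

open Finset

/-- The base. -/
def XX : ℕ := 281474976710656

theorem lk48_eq (T i : ℕ) : lk48 T i = T / XX ^ i % XX := by
  have h : lk48 T i = (T >>> (48 * i)) % XX := rfl
  rw [h, Nat.shiftRight_eq_div_pow, pow_mul]
  rfl

theorem sum_block (N n : ℕ) : ∑ j ∈ range n, (N / XX ^ j % XX) * XX ^ j = N % XX ^ n := by
  induction n with
  | zero => simp [Nat.mod_one]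
  | succ n ih =>
    rw [Finset.sum_range_succ, ih, Nat.mod_pow_succ, mul_comm]

theorem sum_lk {N n : ℕ} (h : N < XX ^ n) : ∑ j ∈ range n, lk48 N j * XX ^ j = N := by
  simp_rw [lk48_eq]
  rw [sum_block, Nat.mod_eq_of_lt h]

theorem sum_row (T m n : ℕ) : ∑ j ∈ range n, lk48 T (m + j) * XX ^ j = (T / XX ^ m) % XX ^ n := by
  rw [← sum_block]
  refine Finset.sum_congr rfl fun j _ => ?_
  rw [lk48_eq, Nat.div_div_eq_div_mul, ← pow_add]

theorem uniq {n : ℕ} (w : ℕ → ℤ) (hw : ∀ j < n, |w j| < XX)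
    (h : ∑ j ∈ range n, w j * (XX : ℤ) ^ j = 0) : ∀ j < n, w j = 0 := by
  induction n generalizing w with
  | zero => intro j hj; omega
  | succ n ih =>
    rw [Finset.sum_range_succ'] at h
    have h1 : ∑ j ∈ range n, w (j + 1) * (XX : ℤ) ^ (j + 1) =
        XX * ∑ j ∈ range n, w (j + 1) * (XX : ℤ) ^ j := by
      rw [Finset.mul_sum]
      exact Finset.sum_congr rfl fun j _ => by rw [pow_succ]; ring
    rw [h1, pow_zero, mul_one] at h
    have hd : (XX : ℤ) ∣ w 0 := ⟨-∑ j ∈ range n, w (j + 1) * (XX : ℤ) ^ j, by linarith⟩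
    have h0 : w 0 = 0 := Int.eq_zero_of_abs_lt_dvd hd (hw 0 (by omega))
    have h2 : ∑ j ∈ range n, w (j + 1) * (XX : ℤ) ^ j = 0 := by
      rw [h0, add_zero] at h
      rcases mul_eq_zero.1 h with h3 | h3
      · exact absurd h3 (by norm_num [XX])
      · exact h3
    intro j hj
    rcases j with _ | j
    · exact h0
    · exact ih (fun j => w (j + 1)) (fun j hj => hw (j + 1) (by omega)) h2 j (by omega)

/-- Sum over a list. -/
noncomputable def lsum (f : ℕ → ℕ) (L : List ℕ) : ℕ :=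
  List.rec (motive := fun _ => ℕ) 0 (fun B _ ih => Nat.add (f B) ih) L

theorem lsum_eq (f : ℕ → ℕ) (L : List ℕ) : lsum f L = (L.map f).sum := by
  induction L with
  | nil => rfl
  | cons x L ih =>
    have : lsum f (x :: L) = f x + lsum f L := rfl
    rw [this, ih, List.map_cons, List.sum_cons]

/-- All elements of a list. -/
noncomputable def lall (f : ℕ → Bool) (L : List ℕ) : Bool :=
  List.rec (motive := fun _ => Bool) true (fun B _ ih => cond (f B) ih false) L

theorem lall_spec {f : ℕ → Bool} {L : List ℕ} (h : lall f L = true) : ∀ x ∈ L, f x = true := by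
  induction L with
  | nil => intro x hx; simp at hx
  | cons y L ih =>
    have h' : cond (f y) (lall f L) false = true := h
    cases hf : f y with
    | false => rw [hf] at h'; exact absurd h' Bool.false_ne_true
    | true =>
      rw [hf] at h'
      intro x hx
      rcases List.mem_cons.1 hx with h1 | h1
      · rw [h1]; exact hf
      · exact ih h' x h1

/-- Offset of the entries of the factor. -/
def oL : ℕ := 65536

/-- Offset of the multipliers. -/
def oE : ℕ := 8589934592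

/-- `1 + X + ... + X ^ (n - 1)`. -/
def ones (n : ℕ) : ℕ := Nat.div (Nat.sub (Nat.pow XX n) 1) (Nat.sub XX 1)

theorem sum_ones (n : ℕ) : ∑ j ∈ range n, XX ^ j = ones n := by
  rw [Nat.geomSum_eq (by norm_num [XX])]
  rfl

/-- Left hand side contribution of a multiplier. -/
def lM (n E S i : ℕ) : ℕ :=
  Nat.add (Nat.add (Nat.mul (lk48 E i) (ones n)) (Nat.mul oE S))
    (Nat.add (Nat.mul (lk48 S i) (Nat.mul oE (ones n))) E)

/-- Right hand side contribution of a multiplier. -/
def rM (n E S i : ℕ) : ℕ :=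
  Nat.add (Nat.add (Nat.mul (lk48 E i) S) (Nat.mul oE (ones n)))
    (Nat.add (Nat.mul (lk48 S i) E) (Nat.mul oE (ones n)))

/-- Check of one row. -/
noncomputable def rowOK (n o T : ℕ) (Bs : List ℕ) (E0 E1 E2 E3 S0 S1 S2 S3 i : ℕ) : Bool :=
  Nat.beq
    (Nat.add (Nat.add (Nat.mod (Nat.shiftRight T (Nat.mul 48 (Nat.mul i n))) (Nat.pow XX n))
      (Nat.add (Nat.mul (Nat.mul 2 oL) (lsum (fun B => B) Bs))
        (Nat.mul (Nat.mul (Nat.mul 2 oL) (ones n)) (lsum (fun B => lk48 B i) Bs))))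
      (Nat.add (Nat.add (lM n E0 S0 i) (lM n E1 S1 i)) (Nat.add (lM n E2 S2 i) (lM n E3 S3 i))))
    (Nat.add (Nat.add (Nat.mul o (ones n))
      (Nat.add (Nat.mul 2 (lsum (fun B => Nat.mul (lk48 B i) B) Bs))
        (Nat.mul (Nat.mul (Nat.mul 2 (Nat.mul oL oL)) Bs.length) (ones n))))
      (Nat.add (Nat.add (rM n E0 S0 i) (rM n E1 S1 i)) (Nat.add (rM n E2 S2 i) (rM n E3 S3 i))))

/-- Check of the digits. -/
noncomputable def digOK (n M B : ℕ) : Bool :=
  cond (Nat.ble (Nat.succ B) (Nat.pow XX n)) (allN n fun j => Nat.ble (lk48 B j) M) false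

/-- Check of the whole matrix. -/
noncomputable def certOK (n o T : ℕ) (Bs : List ℕ) (E0 E1 E2 E3 S0 S1 S2 S3 : ℕ) : Bool :=
  cond (lall (digOK n (Nat.mul 2 oL)) Bs)
    (cond (lall (digOK n (Nat.mul 2 oE)) [E0, E1, E2, E3])
      (cond (lall (digOK n 2) [S0, S1, S2, S3])
        (cond (Nat.ble Bs.length 81)
          (allN n (rowOK n o T Bs E0 E1 E2 E3 S0 S1 S2 S3)) false) false) false) false

/-- Entry of a packed vector with offset. -/
def vec (o B i : ℕ) : ℤ := (lk48 B i : ℤ) - o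

theorem sum_vec {n B : ℕ} (o : ℕ) (h : B < XX ^ n) :
    ∑ j ∈ range n, vec o B j * (XX : ℤ) ^ j = B - o * ones n := by
  unfold vec
  simp_rw [sub_mul]
  rw [Finset.sum_sub_distrib, ← Finset.mul_sum]
  have h1 := sum_lk h
  have h2 := sum_ones n
  have h1' : ∑ j ∈ range n, ((lk48 B j : ℕ) : ℤ) * (XX : ℤ) ^ j = B := by exact_mod_cast h1
  have h2' : ∑ j ∈ range n, (XX : ℤ) ^ j = ones n := by exact_mod_cast h2
  rw [h1', h2']

theorem digOK_spec {n M B : ℕ} (h : digOK n M B = true) : B < XX ^ n ∧ ∀ j < n, lk48 B j ≤ M := by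
  have h' : cond (Nat.ble (Nat.succ B) (Nat.pow XX n)) (allN n fun j => Nat.ble (lk48 B j) M) false = true := h
  cases hb : Nat.ble (Nat.succ B) (Nat.pow XX n) with
  | false => rw [hb] at h'; exact absurd h' Bool.false_ne_true
  | true =>
    rw [hb] at h'
    exact ⟨Nat.le_of_ble_eq_true hb, fun j hj => Nat.le_of_ble_eq_true (allN_spec h' j hj)⟩

/-- The value expected at an entry. -/
def cval (o : ℕ) (Bs : List ℕ) (E0 E1 E2 E3 S0 S1 S2 S3 i j : ℕ) : ℤ :=
  o + 2 * (Bs.map fun B => vec oL B i * vec oL B j).sum +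
    ((vec oE E0 i * vec 1 S0 j + vec 1 S0 i * vec oE E0 j) +
     (vec oE E1 i * vec 1 S1 j + vec 1 S1 i * vec oE E1 j) +
     (vec oE E2 i * vec 1 S2 j + vec 1 S2 i * vec oE E2 j) +
     (vec oE E3 i * vec 1 S3 j + vec 1 S3 i * vec oE E3 j))

theorem vec_abs {o B i M : ℕ} (h : lk48 B i ≤ M) (hM : M = 2 * o) : |vec o B i| ≤ o := by
  unfold vec
  subst hM
  rw [abs_le]
  constructor
  · have : (0 : ℤ) ≤ (lk48 B i : ℤ) := Int.natCast_nonneg _
    linarith
  · have : (lk48 B i : ℤ) ≤ ((2 * o : ℕ) : ℤ) := by exact_mod_cast h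
    push_cast at this
    linarith

theorem list_abs (L : List ℕ) (f : ℕ → ℤ) (M : ℤ) (h : ∀ x ∈ L, |f x| ≤ M) :
    |(L.map f).sum| ≤ L.length * M := by
  induction L with
  | nil => simp
  | cons x L ih =>
    simp only [List.map_cons, List.sum_cons, List.length_cons]
    have h1 := h x (by simp)
    have h2 := ih fun y hy => h y (by simp [hy])
    have h3 := abs_add_le (f x) (L.map f).sum
    push_cast
    linarith

theorem list_cast (L : List ℕ) (f : ℕ → ℕ) : (((L.map f).sum : ℕ) : ℤ) = (L.map fun x => (f x : ℤ)).sum := by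
  induction L with
  | nil => simp
  | cons x L ih => simp [ih]

theorem list_gram (L : List ℕ) (n i : ℕ) (h : ∀ B ∈ L, B < XX ^ n) :
    ∑ j ∈ range n, (L.map fun B => vec oL B i * vec oL B j).sum * (XX : ℤ) ^ j =
      ((L.map fun B => lk48 B i * B).sum : ℕ) - oL * ((L.map fun B => B).sum : ℕ) -
        oL * ones n * ((L.map fun B => lk48 B i).sum : ℕ) + oL * oL * L.length * ones n := by
  induction L with
  | nil => simp
  | cons B L ih =>
    have h1 := ih fun y hy => h y (by simp [hy])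
    have h2 := sum_vec oL (h B (by simp))
    simp only [List.map_cons, List.sum_cons, List.length_cons, add_mul, Finset.sum_add_distrib]
    rw [h1]
    have h3 : ∑ j ∈ range n, vec oL B i * vec oL B j * (XX : ℤ) ^ j =
        vec oL B i * ((B : ℤ) - oL * ones n) := by
      rw [← h2, Finset.mul_sum]
      exact Finset.sum_congr rfl fun j _ => by ring
    rw [h3]
    unfold vec
    push_cast
    ring

theorem cert_entry {n o T : ℕ} {Bs : List ℕ} {E0 E1 E2 E3 S0 S1 S2 S3 : ℕ}
    (ho1 : 2 ^ 40 ≤ o) (ho2 : o ≤ 2 ^ 46)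
    (h : certOK n o T Bs E0 E1 E2 E3 S0 S1 S2 S3 = true) :
    ∀ i < n, ∀ j < n, (lk48 T (i * n + j) : ℤ) = cval o Bs E0 E1 E2 E3 S0 S1 S2 S3 i j := by
  have h' : cond (lall (digOK n (Nat.mul 2 oL)) Bs)
    (cond (lall (digOK n (Nat.mul 2 oE)) [E0, E1, E2, E3])
      (cond (lall (digOK n 2) [S0, S1, S2, S3])
        (cond (Nat.ble Bs.length 81)
          (allN n (rowOK n o T Bs E0 E1 E2 E3 S0 S1 S2 S3)) false) false) false) false = true := h
  cases c1 : lall (digOK n (Nat.mul 2 oL)) Bs with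
  | false => rw [c1] at h'; exact absurd h' Bool.false_ne_true
  | true =>
  cases c2 : lall (digOK n (Nat.mul 2 oE)) [E0, E1, E2, E3] with
  | false => rw [c1, c2] at h'; exact absurd h' Bool.false_ne_true
  | true =>
  cases c3 : lall (digOK n 2) [S0, S1, S2, S3] with
  | false => rw [c1, c2, c3] at h'; exact absurd h' Bool.false_ne_true
  | true =>
  cases c4 : Nat.ble Bs.length 81 with
  | false => rw [c1, c2, c3, c4] at h'; exact absurd h' Bool.false_ne_true
  | true =>
  rw [c1, c2, c3, c4] at h'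
  have hB := fun B hB => digOK_spec (lall_spec c1 B hB)
  have hE := fun B hB => digOK_spec (lall_spec c2 B hB)
  have hS := fun B hB => digOK_spec (lall_spec c3 B hB)
  have hrk : Bs.length ≤ 81 := Nat.le_of_ble_eq_true c4
  have hrow := allN_spec h'
  intro i hi
  have hr := Nat.eq_of_beq_eq_true (hrow i hi)
  have hr' : (T / XX ^ (i * n)) % XX ^ n +
      (2 * oL * (Bs.map fun B => B).sum + 2 * oL * ones n * (Bs.map fun B => lk48 B i).sum) +
      ((lM n E0 S0 i + lM n E1 S1 i) + (lM n E2 S2 i + lM n E3 S3 i)) =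
      o * ones n + (2 * (Bs.map fun B => lk48 B i * B).sum + 2 * (oL * oL) * Bs.length * ones n) +
      ((rM n E0 S0 i + rM n E1 S1 i) + (rM n E2 S2 i + rM n E3 S3 i)) := by
    rw [← lsum_eq, ← lsum_eq, ← lsum_eq]
    have e : T / XX ^ (i * n) = Nat.shiftRight T (Nat.mul 48 (Nat.mul i n)) := by
      change _ = T >>> (48 * (i * n))
      rw [Nat.shiftRight_eq_div_pow, pow_mul 2 48 (i * n)]
      rfl
    rw [e]
    exact hr
  have hz := congrArg (fun x : ℕ => (x : ℤ)) hr'
  have hm : ∀ E S : ℕ, E < XX ^ n → S < XX ^ n →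
      ∑ j ∈ range n, (vec oE E i * vec 1 S j + vec 1 S i * vec oE E j) * (XX : ℤ) ^ j =
        (rM n E S i : ℤ) - lM n E S i := by
    intro E S h1 h2
    have e1 := sum_vec oE h1
    have e2 := sum_vec 1 h2
    have e3 : ∑ j ∈ range n, (vec oE E i * vec 1 S j + vec 1 S i * vec oE E j) * (XX : ℤ) ^ j =
        vec oE E i * ∑ j ∈ range n, vec 1 S j * (XX : ℤ) ^ j +
          vec 1 S i * ∑ j ∈ range n, vec oE E j * (XX : ℤ) ^ j := by
      rw [Finset.mul_sum, Finset.mul_sum, ← Finset.sum_add_distrib]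
      exact Finset.sum_congr rfl fun j _ => by ring
    rw [e3, e1, e2]
    have e4 : rM n E S i = (lk48 E i * S + oE * ones n) + (lk48 S i * E + oE * ones n) := rfl
    have e5 : lM n E S i = (lk48 E i * ones n + oE * S) + (lk48 S i * (oE * ones n) + E) := rfl
    rw [e4, e5]
    unfold vec
    push_cast
    ring
  have hsum : ∑ j ∈ range n, ((lk48 T (i * n + j) : ℤ) -
      cval o Bs E0 E1 E2 E3 S0 S1 S2 S3 i j) * (XX : ℤ) ^ j = 0 := by
    have t1 : ∑ j ∈ range n, ((lk48 T (i * n + j) : ℕ) : ℤ) * (XX : ℤ) ^ j =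
        ((T / XX ^ (i * n)) % XX ^ n : ℕ) := by
      exact_mod_cast sum_row T (i * n) n
    have t2 : ∑ j ∈ range n, (XX : ℤ) ^ j = ones n := by exact_mod_cast sum_ones n
    have t3 := list_gram Bs n i fun B h => (hB B h).1
    have m0 := hm E0 S0 (hE E0 (by simp)).1 (hS S0 (by simp)).1
    have m1 := hm E1 S1 (hE E1 (by simp)).1 (hS S1 (by simp)).1
    have m2 := hm E2 S2 (hE E2 (by simp)).1 (hS S2 (by simp)).1
    have m3 := hm E3 S3 (hE E3 (by simp)).1 (hS S3 (by simp)).1
    have e : ∀ j, ((lk48 T (i * n + j) : ℤ) - cval o Bs E0 E1 E2 E3 S0 S1 S2 S3 i j) * (XX : ℤ) ^ j =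
        ((lk48 T (i * n + j) : ℕ) : ℤ) * (XX : ℤ) ^ j - o * (XX : ℤ) ^ j -
        2 * ((Bs.map fun B => vec oL B i * vec oL B j).sum * (XX : ℤ) ^ j) -
        (vec oE E0 i * vec 1 S0 j + vec 1 S0 i * vec oE E0 j) * (XX : ℤ) ^ j -
        (vec oE E1 i * vec 1 S1 j + vec 1 S1 i * vec oE E1 j) * (XX : ℤ) ^ j -
        (vec oE E2 i * vec 1 S2 j + vec 1 S2 i * vec oE E2 j) * (XX : ℤ) ^ j -
        (vec oE E3 i * vec 1 S3 j + vec 1 S3 i * vec oE E3 j) * (XX : ℤ) ^ j := by
      intro j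
      unfold cval
      ring
    rw [Finset.sum_congr rfl fun j _ => e j]
    simp only [Finset.sum_sub_distrib]
    rw [t1, ← Finset.mul_sum, ← Finset.mul_sum, t2, t3, m0, m1, m2, m3]
    push_cast at hz ⊢
    linarith
  have hw : ∀ j < n, |(lk48 T (i * n + j) : ℤ) - cval o Bs E0 E1 E2 E3 S0 S1 S2 S3 i j| < XX := by
    intro j hj
    have b0 : (0 : ℤ) ≤ (lk48 T (i * n + j) : ℤ) := Int.natCast_nonneg _
    have b1 : (lk48 T (i * n + j) : ℤ) < XX := by
      have : lk48 T (i * n + j) < XX := Nat.mod_lt _ (by norm_num)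
      exact_mod_cast this
    have g1 : |(Bs.map fun B => vec oL B i * vec oL B j).sum| ≤ Bs.length * ((oL : ℤ) * oL) := by
      apply list_abs
      intro B hB'
      rw [abs_mul]
      exact mul_le_mul (vec_abs ((hB B hB').2 i hi) rfl) (vec_abs ((hB B hB').2 j hj) rfl)
        (abs_nonneg _) (by positivity)
    have g2 : (Bs.length : ℤ) * ((oL : ℤ) * oL) ≤ 81 * (65536 * 65536) := by
      have : (Bs.length : ℤ) ≤ 81 := by exact_mod_cast hrk
      have e : (oL : ℤ) = 65536 := rfl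
      rw [e]
      nlinarith
    have g3 : ∀ E S : ℕ, (∀ j < n, lk48 E j ≤ Nat.mul 2 oE) → (∀ j < n, lk48 S j ≤ 2) →
        |vec oE E i * vec 1 S j + vec 1 S i * vec oE E j| ≤ 2 * 8589934592 := by
      intro E S h1 h2
      have a1 := vec_abs (h1 i hi) rfl
      have a2 := vec_abs (h1 j hj) rfl
      have a3 := vec_abs (o := 1) (h2 i hi) rfl
      have a4 := vec_abs (o := 1) (h2 j hj) rfl
      have e : (oE : ℤ) = 8589934592 := rfl
      have c1 : |vec oE E i * vec 1 S j| ≤ oE * 1 := by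
        rw [abs_mul]
        exact mul_le_mul a1 (by simpa using a4) (abs_nonneg _) (by positivity)
      have c2 : |vec 1 S i * vec oE E j| ≤ 1 * oE := by
        rw [abs_mul]
        exact mul_le_mul (by simpa using a3) a2 (abs_nonneg _) (by norm_num)
      have := abs_add_le (vec oE E i * vec 1 S j) (vec 1 S i * vec oE E j)
      rw [e] at c1 c2
      linarith
    have k0 := g3 E0 S0 (hE E0 (by simp)).2 (hS S0 (by simp)).2
    have k1 := g3 E1 S1 (hE E1 (by simp)).2 (hS S1 (by simp)).2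
    have k2 := g3 E2 S2 (hE E2 (by simp)).2 (hS S2 (by simp)).2
    have k3 := g3 E3 S3 (hE E3 (by simp)).2 (hS S3 (by simp)).2
    have x : (XX : ℤ) = 281474976710656 := rfl
    have o1 : (1099511627776 : ℤ) ≤ o := by exact_mod_cast ho1
    have o2 : (o : ℤ) ≤ 70368744177664 := by exact_mod_cast ho2
    rw [abs_le] at g1 k0 k1 k2 k3
    rw [x] at b1 ⊢
    unfold cval
    rw [abs_lt]
    constructor <;> linarith [g1.1, g1.2, k0.1, k0.2, k1.1, k1.2, k2.1, k2.2, k3.1, k3.2]
  intro j hj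
  have := uniq _ hw hsum j hj
  linarith

end EulF
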