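import Pool.Agent.Lib.EulF.Val

/-!
# The pointwise inequality for representatives
-/

set_option autoImplicit false
set_option maxRecDepth 100000

namespace EulF

open Finset

theorem nz_eq {d : ℕ} (hd : d ≤ 2) :
    ((nz d : ℕ) : ℤ) = (if d = 1 then 1 else 0) + (if fl d = 1 then 1 else 0) := by
  interval_cases d <;> rfl

theorem arcN_eq {h : Fin 6 → Fin 6 → ℕ} (hh : Good h) :
    ((arcN (h 0 1) (h 0 2) (h 1 2) (h 0 3) (h 1 3) (h 2 3) (h 0 4) (h 1 4) (h 2 4) (h 3 4)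
      (h 0 5) (h 1 5) (h 2 5) (h 3 5) (h 4 5) : ℕ) : ℤ) = arcs h := by
  have e : arcN (h 0 1) (h 0 2) (h 1 2) (h 0 3) (h 1 3) (h 2 3) (h 0 4) (h 1 4) (h 2 4) (h 3 4)
      (h 0 5) (h 1 5) (h 2 5) (h 3 5) (h 4 5) =
      ((((((((((nz (h 0 1) + nz (h 0 2)) + nz (h 1 2)) + nz (h 0 3)) + nz (h 1 3)) + nz (h 2 3)) +
        nz (h 0 4)) + nz (h 1 4)) + nz (h 2 4)) + nz (h 3 4)) +
        ((((nz (h 0 5) + nz (h 1 5)) + nz (h 2 5)) + nz (h 3 5)) + nz (h 4 5))) := rfl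
  rw [e]
  unfold arcs
  simp only [Fin.sum_univ_six, hh.diag]
  rw [hh.anti 0 1, hh.anti 0 2, hh.anti 1 2, hh.anti 0 3, hh.anti 1 3, hh.anti 2 3, hh.anti 0 4,
    hh.anti 1 4, hh.anti 2 4, hh.anti 3 4, hh.anti 0 5, hh.anti 1 5, hh.anti 2 5, hh.anti 3 5,
    hh.anti 4 5]
  push_cast
  rw [nz_eq (hh.le 0 1), nz_eq (hh.le 0 2), nz_eq (hh.le 1 2), nz_eq (hh.le 0 3), nz_eq (hh.le 1 3),
    nz_eq (hh.le 2 3), nz_eq (hh.le 0 4), nz_eq (hh.le 1 4), nz_eq (hh.le 2 4), nz_eq (hh.le 3 4),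
    nz_eq (hh.le 0 5), nz_eq (hh.le 1 5), nz_eq (hh.le 2 5), nz_eq (hh.le 3 5), nz_eq (hh.le 4 5)]
  norm_num
  ring

/-- Weight of a vertex of a pattern. -/
def wv (h : Fin 6 → Fin 6 → ℕ) (i : Fin 6) : ℕ := ∑ j, wt (h i j)

theorem wt_zero : wt 0 = 0 := rfl

theorem mino_true {h : Fin 6 → Fin 6 → ℕ} (hh : Good h) (hm : ∀ i, wv h 5 ≤ wv h i) :
    mino (h 0 1) (h 0 2) (h 1 2) (h 0 3) (h 1 3) (h 2 3) (h 0 4) (h 1 4) (h 2 4) (h 3 4)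
      (h 0 5) (h 1 5) (h 2 5) (h 3 5) (h 4 5) = true := by
  have h5 : wv h 5 = wt (fl (h 0 5)) + wt (fl (h 1 5)) + wt (fl (h 2 5)) + wt (fl (h 3 5)) +
      wt (fl (h 4 5)) := by
    unfold wv
    rw [Fin.sum_univ_six, hh.diag, wt_zero, hh.anti 0 5, hh.anti 1 5, hh.anti 2 5, hh.anti 3 5,
      hh.anti 4 5, add_zero]
  have h0 : wv h 0 = wt (h 0 1) + wt (h 0 2) + wt (h 0 3) + wt (h 0 4) + wt (h 0 5) := by
    unfold wv
    rw [Fin.sum_univ_six, hh.diag, wt_zero]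
    ring
  have h1 : wv h 1 = wt (fl (h 0 1)) + wt (h 1 2) + wt (h 1 3) + wt (h 1 4) + wt (h 1 5) := by
    unfold wv
    rw [Fin.sum_univ_six, hh.diag, wt_zero, hh.anti 0 1]
    ring
  have h2 : wv h 2 = wt (fl (h 0 2)) + wt (fl (h 1 2)) + wt (h 2 3) + wt (h 2 4) + wt (h 2 5) := by
    unfold wv
    rw [Fin.sum_univ_six, hh.diag, wt_zero, hh.anti 0 2, hh.anti 1 2]
    ring
  have h3 : wv h 3 = wt (fl (h 0 3)) + wt (fl (h 1 3)) + wt (fl (h 2 3)) + wt (h 3 4) + wt (h 3 5) := by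
    unfold wv
    rw [Fin.sum_univ_six, hh.diag, wt_zero, hh.anti 0 3, hh.anti 1 3, hh.anti 2 3]
    ring
  have h4 : wv h 4 = wt (fl (h 0 4)) + wt (fl (h 1 4)) + wt (fl (h 2 4)) + wt (fl (h 3 4)) + wt (h 4 5) := by
    unfold wv
    rw [Fin.sum_univ_six, hh.diag, wt_zero, hh.anti 0 4, hh.anti 1 4, hh.anti 2 4, hh.anti 3 4]
    ring
  have m0 := hm 0
  rw [h5, h0] at m0
  have m1 := hm 1
  rw [h5, h1] at m1
  have m2 := hm 2
  rw [h5, h2] at m2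
  have m3 := hm 3
  rw [h5, h3] at m3
  have m4 := hm 4
  rw [h5, h4] at m4
  have b0 : Nat.ble (Nat.add (Nat.add (Nat.add (Nat.add (wt (fl (h 0 5))) (wt (fl (h 1 5)))) (wt (fl (h 2 5)))) (wt (fl (h 3 5)))) (wt (fl (h 4 5))))
      (Nat.add (Nat.add (Nat.add (Nat.add (wt (h 0 1)) (wt (h 0 2))) (wt (h 0 3))) (wt (h 0 4))) (wt (h 0 5))) = true :=
    Nat.ble_eq_true_of_le m0
  have b1 : Nat.ble (Nat.add (Nat.add (Nat.add (Nat.add (wt (fl (h 0 5))) (wt (fl (h 1 5)))) (wt (fl (h 2 5)))) (wt (fl (h 3 5)))) (wt (fl (h 4 5))))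
      (Nat.add (Nat.add (Nat.add (Nat.add (wt (fl (h 0 1))) (wt (h 1 2))) (wt (h 1 3))) (wt (h 1 4))) (wt (h 1 5))) = true :=
    Nat.ble_eq_true_of_le m1
  have b2 : Nat.ble (Nat.add (Nat.add (Nat.add (Nat.add (wt (fl (h 0 5))) (wt (fl (h 1 5)))) (wt (fl (h 2 5)))) (wt (fl (h 3 5)))) (wt (fl (h 4 5))))
      (Nat.add (Nat.add (Nat.add (Nat.add (wt (fl (h 0 2))) (wt (fl (h 1 2)))) (wt (h 2 3))) (wt (h 2 4))) (wt (h 2 5))) = true :=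
    Nat.ble_eq_true_of_le m2
  have b3 : Nat.ble (Nat.add (Nat.add (Nat.add (Nat.add (wt (fl (h 0 5))) (wt (fl (h 1 5)))) (wt (fl (h 2 5)))) (wt (fl (h 3 5)))) (wt (fl (h 4 5))))
      (Nat.add (Nat.add (Nat.add (Nat.add (wt (fl (h 0 3))) (wt (fl (h 1 3)))) (wt (fl (h 2 3)))) (wt (h 3 4))) (wt (h 3 5))) = true :=
    Nat.ble_eq_true_of_le m3
  have b4 : Nat.ble (Nat.add (Nat.add (Nat.add (Nat.add (wt (fl (h 0 5))) (wt (fl (h 1 5)))) (wt (fl (h 2 5)))) (wt (fl (h 3 5)))) (wt (fl (h 4 5))))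
      (Nat.add (Nat.add (Nat.add (Nat.add (wt (fl (h 0 4))) (wt (fl (h 1 4)))) (wt (fl (h 2 4)))) (wt (fl (h 3 4)))) (wt (h 4 5))) = true :=
    Nat.ble_eq_true_of_le m4
  unfold mino
  rw [b0, b1, b2, b3, b4]
  rfl

theorem bad_false {h : Fin 6 → Fin 6 → ℕ} (hh : Good h) (i j : Fin 6) :
    bad (h i j) (h i 5) (h j 5) = false := by
  have h1 := hh.le i j
  have h2 := hh.le i 5
  have h3 := hh.le j 5
  have t1 := hh.tri i j 5
  have t2 := hh.tri j i 5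
  rw [hh.anti i j] at t2
  rw [hh.anti i 5] at t1
  rw [hh.anti j 5] at t2
  generalize h i j = d at *
  generalize h i 5 = a at *
  generalize h j 5 = b at *
  interval_cases d <;> interval_cases a <;> interval_cases b <;> first | rfl | simp_all [fl]

theorem cond_tt {a b : Bool} : cond true a b = a := rfl

/-- The constant of the final inequality. -/
def CC : ℤ := 1026463629

/-- The coefficient of the number of arcs. -/
def DD : ℤ := 100663296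

theorem chk_fin {h : Fin 6 → Fin 6 → ℕ} (hh : Good h)
    (hc : chk (h 0 1) (h 0 2) (h 1 2) (h 0 3) (h 1 3) (h 2 3) (h 0 4) (h 1 4) (h 2 4) (h 3 4) = true) :
    fin (h 0 1) (h 0 2) (h 1 2) (h 0 3) (h 1 3) (h 2 3) (h 0 4) (h 1 4) (h 2 4) (h 3 4)
      (h 0 5) (h 1 5) (h 2 5) (h 3 5) (h 4 5) = true := by
  have b := bad_false hh
  unfold chk at hc
  have c0 := all3_spec hc (h 0 5) (hh.le 0 5)
  have c1 := all3_spec c0 (h 1 5) (hh.le 1 5)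
  rw [b 0 1, cond_false] at c1
  have c2 := all3_spec c1 (h 2 5) (hh.le 2 5)
  rw [b 0 2, b 1 2, cond_false, cond_false] at c2
  have c3 := all3_spec c2 (h 3 5) (hh.le 3 5)
  rw [b 0 3, b 1 3, b 2 3, cond_false, cond_false, cond_false] at c3
  have c4 := all3_spec c3 (h 4 5) (hh.le 4 5)
  rw [b 0 4, b 1 4, b 2 4, b 3 4, cond_false, cond_false, cond_false, cond_false] at c4
  exact c4

theorem point {h : Fin 6 → Fin 6 → ℕ} (hh : Good h) (hm : ∀ i, wv h 5 ≤ wv h i)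
    (hc : chk (h 0 1) (h 0 2) (h 1 2) (h 0 3) (h 1 3) (h 2 3) (h 0 4) (h 1 4) (h 2 4) (h 3 4) = true) :
    J gT h + 2 * DD * arcs h ≤ 2 * CC := by
  have h1 := chk_fin hh hc
  unfold fin at h1
  rw [mino_true hh hm, cond_tt] at h1
  have h2 := Nat.le_of_ble_eq_true h1
  have h3 : val (h 0 1) (h 0 2) (h 1 2) (h 0 3) (h 1 3) (h 2 3) (h 0 4) (h 1 4) (h 2 4) (h 3 4)
      (h 0 5) (h 1 5) (h 2 5) (h 3 5) (h 4 5) +
      100663296 * arcN (h 0 1) (h 0 2) (h 1 2) (h 0 3) (h 1 3) (h 2 3) (h 0 4) (h 1 4) (h 2 4) (h 3 4)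
        (h 0 5) (h 1 5) (h 2 5) (h 3 5) (h 4 5) ≤ 395825212462989 := h2
  rw [val_eq hh] at h3
  rw [J_isoN hh, ← arcN_eq hh]
  have h4 : ((∑ k : Fin 15, isoN (sig h (tS k 0) (tS k 1) (tS k 2) (tS k 3))
      (ext h (tS k 0) (tS k 1) (tS k 2) (tS k 3) (tb k 4))
      (ext h (tS k 0) (tS k 1) (tS k 2) (tS k 3) (tb k 5)) : ℕ) : ℤ) +
      100663296 * (arcN (h 0 1) (h 0 2) (h 1 2) (h 0 3) (h 1 3) (h 2 3) (h 0 4) (h 1 4) (h 2 4) (h 3 4)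
        (h 0 5) (h 1 5) (h 2 5) (h 3 5) (h 4 5) : ℕ) ≤ 395825212462989 := by
    exact_mod_cast h3
  push_cast at h4
  have e1 : DD = 100663296 := rfl
  have e2 : CC = 1026463629 := rfl
  have e3 : (OFF : ℤ) = 26388279066624 := rfl
  rw [e1, e2, e3]
  linarith

end EulF
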