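import Pool.Agent.Lib.EulF.Eval

/-!
# The fifteen sums, the number of arcs and the weights
-/

set_option autoImplicit false
set_option maxRecDepth 100000

namespace EulF

open Finset

theorem sum15 {M : Type*} [AddCommMonoid M] (F : Fin 15 → M) :
    ∑ k : Fin 15, F k = F 0 + (F 1 + (F 2 + (F 3 + (F 4 + (F 5 + (F 6 + (F 7 + (F 8 + (F 9 +
      (F 10 + (F 11 + (F 12 + (F 13 + F 14))))))))))))) := by
  simp only [Fin.sum_univ_succ, Fin.sum_univ_zero, add_zero]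
  rfl

theorem val_eq {h : Fin 6 → Fin 6 → ℕ} (hh : Good h) :
    val (h 0 1) (h 0 2) (h 1 2) (h 0 3) (h 1 3) (h 2 3) (h 0 4) (h 1 4) (h 2 4) (h 3 4)
      (h 0 5) (h 1 5) (h 2 5) (h 3 5) (h 4 5) =
    ∑ k : Fin 15, isoN (sig h (tS k 0) (tS k 1) (tS k 2) (tS k 3))
      (ext h (tS k 0) (tS k 1) (tS k 2) (tS k 3) (tb k 4))
      (ext h (tS k 0) (tS k 1) (tS k 2) (tS k 3) (tb k 5)) := by
  rw [sum15]
  have t0 : isoN (sig h (tS 0 0) (tS 0 1) (tS 0 2) (tS 0 3))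
      (ext h (tS 0 0) (tS 0 1) (tS 0 2) (tS 0 3) (tb 0 4))
      (ext h (tS 0 0) (tS 0 1) (tS 0 2) (tS 0 3) (tb 0 5)) =
      isoN (sig h 2 3 4 5) (ext h 2 3 4 5 0) (ext h 2 3 4 5 1) := rfl
  have t1 : isoN (sig h (tS 1 0) (tS 1 1) (tS 1 2) (tS 1 3))
      (ext h (tS 1 0) (tS 1 1) (tS 1 2) (tS 1 3) (tb 1 4))
      (ext h (tS 1 0) (tS 1 1) (tS 1 2) (tS 1 3) (tb 1 5)) =
      isoN (sig h 1 3 4 5) (ext h 1 3 4 5 0) (ext h 1 3 4 5 2) := rfl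
  have t2 : isoN (sig h (tS 2 0) (tS 2 1) (tS 2 2) (tS 2 3))
      (ext h (tS 2 0) (tS 2 1) (tS 2 2) (tS 2 3) (tb 2 4))
      (ext h (tS 2 0) (tS 2 1) (tS 2 2) (tS 2 3) (tb 2 5)) =
      isoN (sig h 1 2 4 5) (ext h 1 2 4 5 0) (ext h 1 2 4 5 3) := rfl
  have t3 : isoN (sig h (tS 3 0) (tS 3 1) (tS 3 2) (tS 3 3))
      (ext h (tS 3 0) (tS 3 1) (tS 3 2) (tS 3 3) (tb 3 4))
      (ext h (tS 3 0) (tS 3 1) (tS 3 2) (tS 3 3) (tb 3 5)) =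
      isoN (sig h 1 2 3 5) (ext h 1 2 3 5 0) (ext h 1 2 3 5 4) := rfl
  have t4 : isoN (sig h (tS 4 0) (tS 4 1) (tS 4 2) (tS 4 3))
      (ext h (tS 4 0) (tS 4 1) (tS 4 2) (tS 4 3) (tb 4 4))
      (ext h (tS 4 0) (tS 4 1) (tS 4 2) (tS 4 3) (tb 4 5)) =
      isoN (sig h 1 2 3 4) (ext h 1 2 3 4 0) (ext h 1 2 3 4 5) := rfl
  have t5 : isoN (sig h (tS 5 0) (tS 5 1) (tS 5 2) (tS 5 3))
      (ext h (tS 5 0) (tS 5 1) (tS 5 2) (tS 5 3) (tb 5 4))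
      (ext h (tS 5 0) (tS 5 1) (tS 5 2) (tS 5 3) (tb 5 5)) =
      isoN (sig h 0 3 4 5) (ext h 0 3 4 5 1) (ext h 0 3 4 5 2) := rfl
  have t6 : isoN (sig h (tS 6 0) (tS 6 1) (tS 6 2) (tS 6 3))
      (ext h (tS 6 0) (tS 6 1) (tS 6 2) (tS 6 3) (tb 6 4))
      (ext h (tS 6 0) (tS 6 1) (tS 6 2) (tS 6 3) (tb 6 5)) =
      isoN (sig h 0 2 4 5) (ext h 0 2 4 5 1) (ext h 0 2 4 5 3) := rfl
  have t7 : isoN (sig h (tS 7 0) (tS 7 1) (tS 7 2) (tS 7 3))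
      (ext h (tS 7 0) (tS 7 1) (tS 7 2) (tS 7 3) (tb 7 4))
      (ext h (tS 7 0) (tS 7 1) (tS 7 2) (tS 7 3) (tb 7 5)) =
      isoN (sig h 0 2 3 5) (ext h 0 2 3 5 1) (ext h 0 2 3 5 4) := rfl
  have t8 : isoN (sig h (tS 8 0) (tS 8 1) (tS 8 2) (tS 8 3))
      (ext h (tS 8 0) (tS 8 1) (tS 8 2) (tS 8 3) (tb 8 4))
      (ext h (tS 8 0) (tS 8 1) (tS 8 2) (tS 8 3) (tb 8 5)) =
      isoN (sig h 0 2 3 4) (ext h 0 2 3 4 1) (ext h 0 2 3 4 5) := rfl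
  have t9 : isoN (sig h (tS 9 0) (tS 9 1) (tS 9 2) (tS 9 3))
      (ext h (tS 9 0) (tS 9 1) (tS 9 2) (tS 9 3) (tb 9 4))
      (ext h (tS 9 0) (tS 9 1) (tS 9 2) (tS 9 3) (tb 9 5)) =
      isoN (sig h 0 1 4 5) (ext h 0 1 4 5 2) (ext h 0 1 4 5 3) := rfl
  have t10 : isoN (sig h (tS 10 0) (tS 10 1) (tS 10 2) (tS 10 3))
      (ext h (tS 10 0) (tS 10 1) (tS 10 2) (tS 10 3) (tb 10 4))
      (ext h (tS 10 0) (tS 10 1) (tS 10 2) (tS 10 3) (tb 10 5)) =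
      isoN (sig h 0 1 3 5) (ext h 0 1 3 5 2) (ext h 0 1 3 5 4) := rfl
  have t11 : isoN (sig h (tS 11 0) (tS 11 1) (tS 11 2) (tS 11 3))
      (ext h (tS 11 0) (tS 11 1) (tS 11 2) (tS 11 3) (tb 11 4))
      (ext h (tS 11 0) (tS 11 1) (tS 11 2) (tS 11 3) (tb 11 5)) =
      isoN (sig h 0 1 3 4) (ext h 0 1 3 4 2) (ext h 0 1 3 4 5) := rfl
  have t12 : isoN (sig h (tS 12 0) (tS 12 1) (tS 12 2) (tS 12 3))
      (ext h (tS 12 0) (tS 12 1) (tS 12 2) (tS 12 3) (tb 12 4))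
      (ext h (tS 12 0) (tS 12 1) (tS 12 2) (tS 12 3) (tb 12 5)) =
      isoN (sig h 0 1 2 5) (ext h 0 1 2 5 3) (ext h 0 1 2 5 4) := rfl
  have t13 : isoN (sig h (tS 13 0) (tS 13 1) (tS 13 2) (tS 13 3))
      (ext h (tS 13 0) (tS 13 1) (tS 13 2) (tS 13 3) (tb 13 4))
      (ext h (tS 13 0) (tS 13 1) (tS 13 2) (tS 13 3) (tb 13 5)) =
      isoN (sig h 0 1 2 4) (ext h 0 1 2 4 3) (ext h 0 1 2 4 5) := rfl
  have t14 : isoN (sig h (tS 14 0) (tS 14 1) (tS 14 2) (tS 14 3))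
      (ext h (tS 14 0) (tS 14 1) (tS 14 2) (tS 14 3) (tb 14 4))
      (ext h (tS 14 0) (tS 14 1) (tS 14 2) (tS 14 3) (tb 14 5)) =
      isoN (sig h 0 1 2 3) (ext h 0 1 2 3 4) (ext h 0 1 2 3 5) := rfl
  rw [t0, t1, t2, t3, t4, t5, t6, t7, t8, t9, t10, t11, t12, t13, t14]
  unfold val
  simp only [← hh.anti]
  rfl

end EulF
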